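import Pool.Agent.H803R2.Lag.LinRel
import Pool.Agent.H949R2.Final

set_option autoImplicit false

/-!
Inhomogeneous relations and power lower bounds.
-/

open Finset

namespace Pool.Agent.H803R2.Lag

open Pool.Agent.H803R2.PerDist (dig dig_nonneg dig_le)

/-- Coefficients of the difference of the relation at `n + 1` and at `n`. -/
def qd (m : ℕ) (q : ℕ → ℤ) (j : ℕ) : ℤ :=
  (if j = 0 then 0 else q (j - 1)) - (if j = m + 1 then 0 else q j)

theorem sum_qd (m : ℕ) (q : ℕ → ℤ) (f : ℕ → ℤ) :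
    ∑ j ∈ range (m + 1 + 1), qd m q j * f j
      = ∑ j ∈ range (m + 1), q j * f (j + 1) - ∑ j ∈ range (m + 1), q j * f j := by
  have h1 : ∑ j ∈ range (m + 1 + 1), qd m q j * f j
      = ∑ j ∈ range (m + 1 + 1), (if j = 0 then 0 else q (j - 1)) * f j
        - ∑ j ∈ range (m + 1 + 1), (if j = m + 1 then 0 else q j) * f j := by
    rw [← Finset.sum_sub_distrib]
    apply Finset.sum_congr rfl
    intro j _
    unfold qd
    ring
  rw [h1, Finset.sum_range_succ', Finset.sum_range_succ _ (m + 1)]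
  simp only [Nat.add_eq_zero_iff, one_ne_zero, and_false, if_false, Nat.add_sub_cancel, if_true,
    zero_mul, add_zero]
  congr 1
  apply Finset.sum_congr rfl
  intro j hj
  rw [mem_range] at hj
  rw [if_neg (by omega)]

theorem rel_qd (b m : ℕ) (q : ℕ → ℤ) (x : ℝ) (n : ℕ) :
    rel b (m + 1) (qd m q) x n = rel b m q x (n + 1) - rel b m q x n := by
  unfold rel
  rw [sum_qd m q (fun j => dig b x (n + j))]
  congr 1
  apply Finset.sum_congr rfl
  intro j _
  have : n + (j + 1) = n + 1 + j := by ring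
  simp only [this]

theorem AA_qd (b m : ℕ) (q : ℕ → ℤ) : AA b (m + 1) (qd m q) = ((b:ℤ) - 1) * AA b m q := by
  unfold AA
  rw [sum_qd m q (fun j => (b:ℤ) ^ j), sub_mul, one_mul]
  congr 1
  rw [Finset.mul_sum]
  apply Finset.sum_congr rfl
  intro j _
  ring

/-- Number of failures of the relation. -/
noncomputable def fails (b m : ℕ) (q : ℕ → ℤ) (e : ℤ) (x : ℝ) (N : ℕ) : ℕ :=
  ((Icc 1 N).filter (fun n => rel b m q x n ≠ e)).card

theorem fails_mono (b m : ℕ) (q : ℕ → ℤ) (e : ℤ) (x : ℝ) : Monotone (fails b m q e x) := by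
  intro N N' h
  unfold fails
  exact Finset.card_le_card (Finset.filter_subset_filter _ (Finset.Icc_subset_Icc_right h))

theorem fails_qd (b m : ℕ) (q : ℕ → ℤ) (e : ℤ) (x : ℝ) (N : ℕ) :
    ((Icc 1 N).filter (fun n => rel b (m + 1) (qd m q) x n ≠ 0)).card
      ≤ 2 * fails b m q e x (N + 1) := by
  classical
  have h1 : ((Icc 1 N).filter (fun n => rel b (m + 1) (qd m q) x n ≠ 0))
      ⊆ ((Icc 1 N).filter (fun n => rel b m q x n ≠ e)) ∪
        ((Icc 1 N).filter (fun n => rel b m q x (n + 1) ≠ e)) := by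
    intro n hn
    rw [mem_filter] at hn
    rw [mem_union, mem_filter, mem_filter]
    by_contra hcon
    push Not at hcon
    apply hn.2
    rw [rel_qd, hcon.1 hn.1, hcon.2 hn.1]
    ring
  refine (Finset.card_le_card h1).trans ?_
  refine (Finset.card_union_le _ _).trans ?_
  have h2 : ((Icc 1 N).filter (fun n => rel b m q x n ≠ e)).card ≤ fails b m q e x (N + 1) :=
    fails_mono b m q e x (Nat.le_succ N)
  have h3 : ((Icc 1 N).filter (fun n => rel b m q x (n + 1) ≠ e)).card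
      ≤ fails b m q e x (N + 1) := by
    unfold fails
    apply Finset.card_le_card_of_injOn (fun n => n + 1)
    · intro n hn
      simp only [coe_filter, mem_Icc, Set.mem_ofPred_eq] at hn ⊢
      exact ⟨⟨by omega, by omega⟩, hn.2⟩
    · intro n _ n' _ h
      exact Nat.add_right_cancel h
  omega

/-- Number of windows of length `H` which are not constant `0` and not constant `b - 1`. -/
noncomputable def nonconst (b : ℕ) (x : ℝ) (H N : ℕ) : ℕ :=
  ((Icc 1 N).filter (fun n => ¬ ((∀ i < H, dig b x (n + i) = 0) ∨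
        (∀ i < H, dig b x (n + i) = b - 1)))).card

theorem exists_exponent (D M : ℕ) : ∃ κ : ℕ, 2 ≤ κ ∧
    ∀ p ∈ M.primeFactors, ∃ e, D ≤ p ^ e ∧ (p ^ e) ^ (M.factorization p) ≤ κ := by
  refine ⟨∑ p ∈ M.primeFactors, (p ^ D) ^ (M.factorization p) + 2, by omega, ?_⟩
  intro p hp
  have hpp := Nat.prime_of_mem_primeFactors hp
  refine ⟨D, (Nat.lt_pow_self hpp.one_lt).le, ?_⟩
  have h1 := Finset.single_le_sum (f := fun p => (p ^ D) ^ (M.factorization p))
    (fun p _ => Nat.zero_le _) hp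
  omega

/-- Rigidity for inhomogeneous relations. -/
theorem rigidity_affine {b : ℕ} (hb : 2 ≤ b) (m : ℕ) (q : ℕ → ℤ) (D : ℕ) (hA : AA b m q ≠ 0) :
    ∃ κ : ℕ, 2 ≤ κ ∧ ∀ (P : Polynomial ℤ), 1 ≤ P.natDegree → P.natDegree ≤ D → ∀ x : ℝ,
      Polynomial.aeval x P = 0 → IsCoprime P.leadingCoeff (((b:ℤ) - 1) * AA b m q) →
      ∀ H : ℕ, ∃ c : ℕ, ∀ (e : ℤ) (N : ℕ),
        nonconst b x H N ≤ c * (fails b m q e x (κ * N) + 1) ^ κ := by
  have hA' : AA b (m + 1) (qd m q) ≠ 0 := by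
    rw [AA_qd]
    apply mul_ne_zero _ hA
    have : (2:ℤ) ≤ b := by exact_mod_cast hb
    omega
  obtain ⟨κ, hκ2, hκ⟩ := exists_exponent D (AA b (m + 1) (qd m q)).natAbs
  refine ⟨κ + 1, by omega, ?_⟩
  intro P hD hDD x hx hc H
  rw [← AA_qd] at hc
  obtain ⟨c, hcN⟩ := rigidity hb (m + 1) (qd m q) x P hD hx hA' hc κ hκ2
    (by
      intro p hp
      obtain ⟨e, h1, h2⟩ := hκ p hp
      exact ⟨e, hDD.trans h1, h2⟩) H
  refine ⟨c * 2 ^ κ, ?_⟩
  intro e N
  rcases Nat.eq_zero_or_pos N with hN | hN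
  · subst hN
    simp [nonconst]
  · refine (hcN N).trans ?_
    have h1 := fails_qd b m q e x (κ * N)
    have h2 : fails b m q e x (κ * N + 1) ≤ fails b m q e x ((κ + 1) * N) := by
      apply fails_mono
      nlinarith
    calc c * (((Icc 1 (κ * N)).filter (fun n => rel b (m + 1) (qd m q) x n ≠ 0)).card + 1) ^ κ
        ≤ c * (2 * (fails b m q e x ((κ + 1) * N) + 1)) ^ κ := by
          apply Nat.mul_le_mul_left
          apply Nat.pow_le_pow_left
          omega
      _ = c * 2 ^ κ * (fails b m q e x ((κ + 1) * N) + 1) ^ κ := by rw [mul_pow]; ring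
      _ ≤ _ := by
          apply Nat.mul_le_mul_left
          exact Nat.pow_le_pow_right (by omega) (by omega)

theorem dig_eq_emod {b : ℕ} (hb : 2 ≤ b) (x : ℝ) {n : ℕ} (hn : 1 ≤ n) :
    dig b x n = ⌊(b:ℝ) ^ n * x⌋ % (b:ℤ) := by
  have h1 := dig_nonneg hb x hn
  have h2 := dig_le hb x hn
  have h3 : dig b x n % (b:ℤ) = dig b x n := Int.emod_eq_of_lt h1 (by omega)
  rw [← h3]
  unfold dig
  rw [Int.sub_mul_emod_self_left]

theorem dig_neg {b : ℕ} (hb : 2 ≤ b) {x : ℝ} (hx : Irrational x) {n : ℕ} (_hn : 1 ≤ n) :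
    dig b (-x) n = b - 1 - dig b x n := by
  have key : ∀ k : ℕ, ⌊(b:ℝ) ^ k * (-x)⌋ = - ⌊(b:ℝ) ^ k * x⌋ - 1 := by
    intro k
    have hirr : Irrational ((b:ℝ) ^ k * x) := by
      have hb0 : ((b:ℤ) ^ k) ≠ 0 := by positivity
      have := hx.intCast_mul hb0
      push_cast at this
      exact this
    have h1 : ((⌊(b:ℝ) ^ k * x⌋ : ℤ) : ℝ) ≠ (b:ℝ) ^ k * x := (hirr.ne_int _).symm
    have h2 := lt_of_le_of_ne (Int.floor_le ((b:ℝ) ^ k * x)) h1
    have h3 := Int.lt_floor_add_one ((b:ℝ) ^ k * x)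
    rw [Int.floor_eq_iff]
    push_cast
    constructor <;> linarith
  unfold dig
  rw [key, key]
  ring

theorem nonzero_lower {b : ℕ} (hb : 2 ≤ b) {x : ℝ} (hx : Irrational x) (halg : IsAlgebraic ℤ x) :
    ∃ (C : ℝ) (D : ℕ), 0 < C ∧ ∀ᶠ N : ℕ in Filter.atTop,
      (N:ℝ) ≤ C * (((Icc 1 N).filter (fun n => dig b x n ≠ 0)).card : ℝ) ^ D := by
  classical
  obtain ⟨P0, hP0, hxP0⟩ := halg
  obtain ⟨P, hP, hxP, hlc⟩ : ∃ P : Polynomial ℤ, P ≠ 0 ∧ Polynomial.aeval x P = 0 ∧
      0 < P.leadingCoeff := by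
    rcases lt_or_gt_of_ne (Polynomial.leadingCoeff_ne_zero.mpr hP0) with h | h
    · exact ⟨-P0, neg_ne_zero.mpr hP0, by simp [hxP0], by rw [Polynomial.leadingCoeff_neg]; omega⟩
    · exact ⟨P0, hP0, hxP0, h⟩
  obtain ⟨a, ha⟩ : ∃ a : ℕ, P.leadingCoeff = (a:ℤ) := ⟨P.leadingCoeff.toNat, by omega⟩
  have ha0 : 0 < a := by omega
  have hM : 0 < a * P.natDegree.factorial := Nat.mul_pos ha0 (Nat.factorial_pos _)
  have hcyc := Pool.Agent.H949R2.cycleAvg_general b (a * P.natDegree.factorial)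
    (a * P.natDegree.factorial) hb hM hM (fun q _ hd => Nat.le_of_dvd hM hd)
  set κ : ℝ := (((a * P.natDegree.factorial : ℕ) : ℝ) / ((a * P.natDegree.factorial : ℕ) *
    (((b : ℝ) - 1) * (Nat.log b (a * P.natDegree.factorial) + 1)))) with hκ
  have hbR : (1:ℝ) ≤ (b:ℝ) - 1 := by
    have : (2:ℝ) ≤ b := by exact_mod_cast hb
    linarith
  have hκ0 : 0 < κ := by
    rw [hκ]
    have h1 : (0:ℝ) < ((a * P.natDegree.factorial : ℕ) : ℝ) := by exact_mod_cast hM
    have h2 : (0:ℝ) ≤ (Nat.log b (a * P.natDegree.factorial) : ℝ) := Nat.cast_nonneg _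
    positivity
  have hmain := Pool.Agent.H949R2.main_ineq b hb x hx P hxP a ha0 ha κ hκ0 hcyc (1/2) (by norm_num)
  set B : ℝ := (1 - 1/2) * (((b : ℝ) - 1) * κ / a) with hB
  have haR : (0:ℝ) < a := by exact_mod_cast ha0
  have hB0 : 0 < B := by
    rw [hB]
    have : 0 < ((b : ℝ) - 1) * κ / a := by positivity
    linarith
  refine ⟨((b:ℝ) - 1) ^ P.natDegree / B, P.natDegree, by positivity, ?_⟩
  filter_upwards [hmain] with N hN
  have h1 : (Pool.Agent.H949R2.digitSum b x N : ℝ)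
      ≤ ((b:ℝ) - 1) * (((Icc 1 N).filter (fun n => dig b x n ≠ 0)).card : ℝ) := by
    unfold Pool.Agent.H949R2.digitSum
    rw [Finset.card_filter]
    push_cast
    rw [Finset.mul_sum]
    apply Finset.sum_le_sum
    intro k hk
    rw [mem_Icc] at hk
    have h2 := dig_eq_emod hb x hk.1
    have h3 := dig_nonneg hb x hk.1
    have h4 := dig_le hb x hk.1
    unfold Pool.Agent.H949R2.digit
    rw [← h2]
    by_cases h5 : dig b x k = 0
    · simp [h5]
    · rw [if_pos h5, mul_one]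
      have h6 : (((dig b x k).toNat : ℤ) : ℝ) ≤ ((b:ℤ) - 1 : ℤ) := by
        have : ((dig b x k).toNat : ℤ) ≤ (b:ℤ) - 1 := by omega
        exact_mod_cast this
      push_cast at h6
      simpa using h6
  have h2 : (0:ℝ) ≤ (Pool.Agent.H949R2.digitSum b x N : ℝ) := Nat.cast_nonneg _
  have h3 : B * N ≤ (((b:ℝ) - 1) * (((Icc 1 N).filter (fun n => dig b x n ≠ 0)).card : ℝ))
      ^ P.natDegree := hN.trans (pow_le_pow_left₀ h2 h1 _)
  rw [mul_pow] at h3
  rw [div_mul_eq_mul_div, le_div_iff₀ hB0]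
  linarith

/-- A relation violated by one of the constant words `0`, `b - 1`. -/
theorem power_aux {b : ℕ} (hb : 2 ≤ b) (m : ℕ) (q : ℕ → ℤ) (e : ℤ) (hA : AA b m q ≠ 0)
    {x : ℝ} (hx : Irrational x) (P : Polynomial ℤ) (hP0 : 1 ≤ P.natDegree)
    (hP : Polynomial.aeval x P = 0) (hc : IsCoprime P.leadingCoeff (((b:ℤ) - 1) * AA b m q))
    (he : ¬ (e = 0 ∧ ∑ j ∈ range (m + 1), q j = 0)) :
    ∃ (C : ℝ) (K κ : ℕ), 0 < C ∧ 1 ≤ κ ∧ ∀ᶠ N : ℕ in Filter.atTop,
      (N:ℝ) ≤ C * ((fails b m q e x (κ * N) : ℝ) + 1) ^ K := by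
  classical
  obtain ⟨κ, hκ2, hκ⟩ := rigidity_affine hb m q P.natDegree hA
  obtain ⟨c, hcN⟩ := hκ P hP0 le_rfl x hP hc (m + 1)
  have hPne : P ≠ 0 := by rintro rfl; simp at hP0
  have halg : IsAlgebraic ℤ x := ⟨P, hPne, hP⟩
  have hbZ : (2:ℤ) ≤ b := by exact_mod_cast hb
  -- sets of digits
  have main : ∀ y : ℝ, Irrational y → IsAlgebraic ℤ y →
      (∀ N, ((Icc 1 N).filter (fun n => dig b y n ≠ 0)).card ≤
        nonconst b x (m + 1) N + fails b m q e x N) →
      ∃ (C : ℝ) (K κ : ℕ), 0 < C ∧ 1 ≤ κ ∧ ∀ᶠ N : ℕ in Filter.atTop,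
      (N:ℝ) ≤ C * ((fails b m q e x (κ * N) : ℝ) + 1) ^ K := by
    intro y hy halgy hcount
    obtain ⟨C, D, hC, hlow⟩ := nonzero_lower hb hy halgy
    refine ⟨C * ((c:ℝ) + 1) ^ D, κ * D, κ, by positivity, by omega, ?_⟩
    filter_upwards [hlow] with N hN
    refine hN.trans ?_
    rw [mul_assoc]
    apply mul_le_mul_of_nonneg_left _ hC.le
    rw [pow_mul, ← mul_pow]
    apply pow_le_pow_left₀ (Nat.cast_nonneg _)
    have h1 := hcount N
    have h2 := hcN e N
    have h3 : fails b m q e x N ≤ fails b m q e x (κ * N) := by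
      apply fails_mono
      nlinarith
    have h4 : fails b m q e x (κ * N) ≤ (fails b m q e x (κ * N) + 1) ^ κ := by
      calc fails b m q e x (κ * N) ≤ (fails b m q e x (κ * N) + 1) ^ 1 := by
            rw [pow_one]; omega
        _ ≤ _ := Nat.pow_le_pow_right (by omega) (by omega)
    have h5 : ((Icc 1 N).filter (fun n => dig b y n ≠ 0)).card
        ≤ (c + 1) * (fails b m q e x (κ * N) + 1) ^ κ := by
      rw [Nat.add_mul, Nat.one_mul]
      omega
    exact_mod_cast h5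
  by_cases he0 : e = 0
  · -- the word `b - 1` violates the relation
    have hs : ∑ j ∈ range (m + 1), q j ≠ 0 := fun h => he ⟨he0, h⟩
    refine main x hx halg ?_
    intro N
    unfold nonconst fails
    refine le_trans (Finset.card_le_card ?_) (Finset.card_union_le _ _)
    intro n hn
    rw [mem_filter] at hn
    rw [mem_union, mem_filter, mem_filter]
    by_cases h1 : (∀ i < m + 1, dig b x (n + i) = 0) ∨ (∀ i < m + 1, dig b x (n + i) = b - 1)
    · right
      refine ⟨hn.1, ?_⟩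
      rcases h1 with h1 | h1
      · exact absurd (h1 0 (by omega)) hn.2
      · have h2 : rel b m q x n = ((b:ℤ) - 1) * ∑ j ∈ range (m + 1), q j := by
          unfold rel
          rw [Finset.mul_sum]
          apply Finset.sum_congr rfl
          intro j hj
          rw [h1 j (by simpa using hj)]
          ring
        rw [h2, he0]
        exact mul_ne_zero (by omega) hs
    · left
      exact ⟨hn.1, h1⟩
  · -- the word `0` violates the relation
    have halgn : IsAlgebraic ℤ (-x) := halg.neg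
    refine main (-x) hx.neg halgn ?_
    intro N
    unfold nonconst fails
    refine le_trans (Finset.card_le_card ?_) (Finset.card_union_le _ _)
    intro n hn
    rw [mem_filter, mem_Icc] at hn
    rw [mem_union, mem_filter, mem_filter]
    rw [dig_neg hb hx hn.1.1] at hn
    by_cases h1 : (∀ i < m + 1, dig b x (n + i) = 0) ∨ (∀ i < m + 1, dig b x (n + i) = b - 1)
    · right
      refine ⟨mem_Icc.mpr hn.1, ?_⟩
      rcases h1 with h1 | h1
      · have h2 : rel b m q x n = 0 := by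
          unfold rel
          apply Finset.sum_eq_zero
          intro j hj
          rw [h1 j (by simpa using hj)]
          ring
        rw [h2]
        exact fun h => he0 h.symm
      · have h2 := h1 0 (by omega)
        rw [Nat.add_zero] at h2
        exact absurd (by rw [h2]; ring) hn.2
    · left
      exact ⟨mem_Icc.mpr hn.1, h1⟩

/-- Power lower bound for the number of failures. -/
theorem power_bound {b : ℕ} (hb : 2 ≤ b) (m : ℕ) (q : ℕ → ℤ) (e : ℤ) (hA : AA b m q ≠ 0)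
    {x : ℝ} (hx : Irrational x) (P : Polynomial ℤ) (hP0 : 1 ≤ P.natDegree)
    (hP : Polynomial.aeval x P = 0) (hc : IsCoprime P.leadingCoeff (((b:ℤ) - 1) * AA b m q))
    (he : ¬ (e = 0 ∧ ∑ j ∈ range (m + 1), q j = 0)) :
    ∃ c δ : ℝ, 0 < c ∧ 0 < δ ∧ ∀ᶠ N : ℕ in Filter.atTop,
      c * (N:ℝ) ^ δ ≤ (fails b m q e x N : ℝ) := by
  obtain ⟨C, K, κ, hC, hκ, hev⟩ := power_aux hb m q e hA hx P hP0 hP hc he
  have hκR : (1:ℝ) ≤ κ := by exact_mod_cast hκ
  -- with `K + 1` in place of `K`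
  have hev2 : ∀ᶠ N : ℕ in Filter.atTop,
      (N:ℝ) / (2 * κ) ≤ C * ((fails b m q e x N : ℝ) + 1) ^ (K + 1) := by
    have ht : Filter.Tendsto (fun N : ℕ => N / κ) Filter.atTop Filter.atTop :=
      Nat.tendsto_div_const_atTop (by omega)
    filter_upwards [ht.eventually hev, Filter.eventually_ge_atTop κ] with N hN hNκ
    have h1 : (fails b m q e x (κ * (N / κ)) : ℝ) ≤ fails b m q e x N := by
      exact_mod_cast fails_mono b m q e x (Nat.mul_div_le N κ)
    have h2 : (N:ℝ) / (2 * κ) ≤ ((N / κ : ℕ) : ℝ) := by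
      rw [div_le_iff₀ (by positivity)]
      have h3 : N < κ * (N / κ) + κ := by
        have := Nat.div_add_mod N κ
        have := Nat.mod_lt N (by omega : 0 < κ)
        omega
      have h4 : 1 ≤ N / κ := (Nat.one_le_div_iff (by omega)).mpr hNκ
      have h5 : N ≤ (N / κ) * (2 * κ) := by nlinarith
      exact_mod_cast h5
    have h6 : (0:ℝ) ≤ fails b m q e x (κ * (N / κ)) := Nat.cast_nonneg _
    calc (N:ℝ) / (2 * κ) ≤ ((N / κ : ℕ) : ℝ) := h2
      _ ≤ C * ((fails b m q e x (κ * (N / κ)) : ℝ) + 1) ^ K := hN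
      _ ≤ C * ((fails b m q e x N : ℝ) + 1) ^ K := by gcongr
      _ ≤ C * ((fails b m q e x N : ℝ) + 1) ^ (K + 1) := by
          apply mul_le_mul_of_nonneg_left _ hC.le
          apply pow_le_pow_right₀ _ (Nat.le_succ K)
          have : (0:ℝ) ≤ fails b m q e x N := Nat.cast_nonneg _
          linarith
  set δ : ℝ := 1 / ((K:ℝ) + 1) with hδ
  have hδ0 : 0 < δ := by positivity
  set c1 : ℝ := (1 / (2 * κ * C)) ^ δ with hc1
  have hc10 : 0 < c1 := by positivity
  refine ⟨c1 / 2, δ, by positivity, hδ0, ?_⟩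
  have htend : Filter.Tendsto (fun N : ℕ => c1 * (N:ℝ) ^ δ) Filter.atTop Filter.atTop :=
    Filter.Tendsto.const_mul_atTop hc10
      ((tendsto_rpow_atTop hδ0).comp tendsto_natCast_atTop_atTop)
  filter_upwards [hev2, htend.eventually_ge_atTop 2] with N hN hN2
  have hF : (0:ℝ) ≤ (fails b m q e x N : ℝ) + 1 := by positivity
  have h1 : (1 / (2 * κ * C)) * (N:ℝ) ≤ ((fails b m q e x N : ℝ) + 1) ^ (K + 1) := by
    rw [div_le_iff₀ (by positivity)] at hN
    rw [div_mul_eq_mul_div, div_le_iff₀ (by positivity), one_mul]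
    linarith
  have h2 : ((1 / (2 * κ * C)) * (N:ℝ)) ^ δ ≤ (fails b m q e x N : ℝ) + 1 := by
    have h3 : (((fails b m q e x N : ℝ) + 1) ^ (K + 1)) ^ δ = (fails b m q e x N : ℝ) + 1 := by
      rw [hδ, one_div]
      have := Real.pow_rpow_inv_natCast hF (Nat.succ_ne_zero K)
      push_cast at this
      exact this
    rw [← h3]
    exact Real.rpow_le_rpow (by positivity) h1 hδ0.le
  rw [Real.mul_rpow (by positivity) (Nat.cast_nonneg _)] at h2
  linarith

end Pool.Agent.H803R2.Lag
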