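import Pool.Agent.H803R2.Lag.Sparse
import Pool.Agent.H803R2.PerDist

set_option autoImplicit false

/-!
Truncations of a real number and the size of the error terms of their convolution powers.
-/

open Finset PowerSeries

namespace Pool.Agent.H803R2.Lag

section
variable (b : ℕ) (E : ℕ → ℤ)

/-- Signed digits. -/
def ep : ℕ → ℤ
  | 0 => E 0
  | n + 1 => E (n + 1) - b * E n

theorem LL_mul_mk : LL (b:ℤ) * mk E = mk (ep b E) := by
  ext n
  rw [LL, sub_mul, one_mul, map_sub, mul_assoc, coeff_C_mul]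
  cases n with
  | zero => simp [ep]
  | succ n =>
    rw [mul_comm X, coeff_succ_mul_X]
    simp [ep]

theorem LL_mul_geom : LL (b:ℤ) * mk (fun n => (b:ℤ) ^ n) = 1 := by
  ext n
  rw [LL, sub_mul, one_mul, map_sub, mul_assoc, coeff_C_mul]
  cases n with
  | zero => simp
  | succ n =>
    rw [mul_comm X, coeff_succ_mul_X]
    simp [coeff_one]
    ring

theorem ep_mul_geom : mk (ep b E) * mk (fun n => (b:ℤ) ^ n) = mk E := by
  rw [← LL_mul_mk, mul_comm (LL (b:ℤ)), mul_assoc, LL_mul_geom, mul_one]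

/-- Number of nonzero signed digits in `[1, N]`. -/
def ch (N : ℕ) : ℕ := ((Icc 1 N).filter (fun n => ep b E n ≠ 0)).card

theorem ch_mono {M N : ℕ} (h : M ≤ N) : ch b E M ≤ ch b E N := by
  unfold ch
  apply Finset.card_le_card
  intro n hn
  simp only [mem_filter, mem_Icc] at hn ⊢
  exact ⟨⟨hn.1.1, by omega⟩, hn.2⟩

theorem sp_ep (N : ℕ) : sp N (mk (ep b E)) ≤ ch b E N + 1 := by
  unfold sp ch
  refine le_trans (Finset.card_le_card (t := insert 0 ((Icc 1 N).filter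
    (fun n => ep b E n ≠ 0))) ?_) (Finset.card_insert_le _ _)
  intro n hn
  simp only [mem_filter, mem_range, coeff_mk] at hn
  rw [mem_insert, mem_filter, mem_Icc]
  by_cases h : n = 0
  · exact Or.inl h
  · exact Or.inr ⟨by omega, hn.2⟩

variable (z : ℝ)

/-- Error terms. -/
noncomputable def T (i n : ℕ) : ℝ :=
  (b:ℝ) ^ n * z ^ (i + 1) - coeff n (LL (b:ℤ) ^ i * mk E ^ (i + 1))

theorem T_zero (n : ℕ) : T b E z 0 n = (b:ℝ) ^ n * z - E n := by
  simp [T]

theorem T_succ (i n : ℕ) : T b E z (i + 1) n = z ^ (i + 1) * T b E z 0 n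
    + ∑ p ∈ antidiagonal n, (ep b E p.1 : ℝ) * T b E z i p.2 := by
  have h1 : LL (b:ℤ) ^ (i + 1) * mk E ^ (i + 1 + 1)
      = mk (ep b E) * (LL (b:ℤ) ^ i * mk E ^ (i + 1)) := by
    rw [← LL_mul_mk]; ring
  have h2 : (E n : ℝ) = ∑ p ∈ antidiagonal n, (ep b E p.1 : ℝ) * (b:ℝ) ^ p.2 := by
    have h3 : coeff n (mk E) = coeff n (mk (ep b E) * mk (fun n => (b:ℤ) ^ n)) := by
      rw [ep_mul_geom]
    rw [coeff_mul, coeff_mk] at h3
    rw [h3]
    push_cast
    apply Finset.sum_congr rfl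
    intro p _
    simp
  rw [T, h1, coeff_mul, T_zero, h2]
  push_cast
  rw [mul_sub, Finset.mul_sum]
  have h4 : ∑ p ∈ antidiagonal n, (ep b E p.1 : ℝ) * T b E z i p.2
      = ∑ p ∈ antidiagonal n, z ^ (i + 1) * ((ep b E p.1 : ℝ) * (b:ℝ) ^ p.2)
        - ∑ p ∈ antidiagonal n, (ep b E p.1 : ℝ) *
          ((coeff p.2 (LL (b:ℤ) ^ i * mk E ^ (i + 1)) : ℤ) : ℝ) := by
    rw [← Finset.sum_sub_distrib]
    apply Finset.sum_congr rfl
    intro p _
    rw [T]
    ring
  rw [h4]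
  simp only [coeff_mk]
  ring

theorem sum_antidiag_le (f g : ℕ → ℝ) (hf : ∀ n, 0 ≤ f n) (hg : ∀ n, 0 ≤ g n) (N : ℕ) :
    ∑ n ∈ range N, ∑ p ∈ antidiagonal n, f p.1 * g p.2
      ≤ (∑ n ∈ range N, f n) * ∑ n ∈ range N, g n := by
  refine le_trans (le_of_eq ?_) (PerDist.sum_conv_le f g hf hg N)
  apply Finset.sum_congr rfl
  intro n _
  rw [Finset.Nat.sum_antidiagonal_eq_sum_range_succ (fun i j => f i * g j) n]

/-- Sum of the absolute signed digits. -/
theorem sum_ep_le {K : ℝ} (hK : ∀ n, |(ep b E n : ℝ)| ≤ K) (N : ℕ) :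
    ∑ n ∈ range (N + 1), |(ep b E n : ℝ)| ≤ K * (ch b E N + 1) := by
  have hK0 : 0 ≤ K := (abs_nonneg _).trans (hK 0)
  have h1 : ∑ n ∈ range (N + 1), |(ep b E n : ℝ)|
      = ∑ n ∈ (range (N + 1)).filter (fun n => ep b E n ≠ 0), |(ep b E n : ℝ)| := by
    rw [Finset.sum_filter_of_ne]
    intro n _ hne heq
    apply hne
    rw [heq]
    simp
  rw [h1]
  have h2 : ((range (N + 1)).filter (fun n => ep b E n ≠ 0)).card ≤ ch b E N + 1 := by
    unfold ch
    refine le_trans (Finset.card_le_card (t := insert 0 ((Icc 1 N).filter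
      (fun n => ep b E n ≠ 0))) ?_) (Finset.card_insert_le _ _)
    intro n hn
    simp only [mem_filter, mem_range] at hn
    rw [mem_insert, mem_filter, mem_Icc]
    by_cases h : n = 0
    · exact Or.inl h
    · exact Or.inr ⟨by omega, hn.2⟩
  calc _ ≤ ∑ n ∈ (range (N + 1)).filter (fun n => ep b E n ≠ 0), K :=
        Finset.sum_le_sum (fun n _ => hK n)
    _ = ((range (N + 1)).filter (fun n => ep b E n ≠ 0)).card * K := by
        rw [Finset.sum_const, nsmul_eq_mul]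
    _ ≤ (ch b E N + 1 : ℕ) * K := by
        have : (((range (N + 1)).filter (fun n => ep b E n ≠ 0)).card : ℝ)
          ≤ ((ch b E N + 1 : ℕ) : ℝ) := by exact_mod_cast h2
        gcongr
    _ = _ := by push_cast; ring

theorem sum_T_zero_le {K : ℝ} (hb : 2 ≤ b) (hK : ∀ n, |(ep b E n : ℝ)| ≤ K)
    (hE : ∀ n, |(b:ℝ) ^ n * z - E n| ≤ K) (N : ℕ) :
    ∑ n ∈ range N, |T b E z 0 n| ≤ K * (ch b E N + 1) + K := by
  have hb1 : (2:ℝ) ≤ b := by exact_mod_cast hb
  have hrec : ∀ n, T b E z 0 (n + 1) = b * T b E z 0 n - ep b E (n + 1) := by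
    intro n
    rw [T_zero, T_zero, ep]
    push_cast
    ring
  have hstep : ∀ n, (b:ℝ) * |T b E z 0 n| ≤ |T b E z 0 (n+1)| + |(ep b E (n+1) : ℝ)| := by
    intro n
    have h1 : (b:ℝ) * T b E z 0 n = T b E z 0 (n+1) + ep b E (n+1) := by
      rw [hrec]; ring
    calc (b:ℝ) * |T b E z 0 n| = |(b:ℝ) * T b E z 0 n| := by
          rw [abs_mul, abs_of_nonneg (by linarith : (0:ℝ) ≤ b)]
      _ = |T b E z 0 (n+1) + ep b E (n+1)| := by rw [h1]
      _ ≤ _ := abs_add_le _ _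
  have hsum : (b:ℝ) * ∑ n ∈ range N, |T b E z 0 n|
      ≤ ∑ n ∈ range N, |T b E z 0 (n+1)| + ∑ n ∈ range N, |(ep b E (n+1) : ℝ)| := by
    rw [Finset.mul_sum, ← Finset.sum_add_distrib]
    exact Finset.sum_le_sum (fun n _ => hstep n)
  have h2 : ∑ n ∈ range N, |T b E z 0 (n+1)| ≤ ∑ n ∈ range N, |T b E z 0 n| + K := by
    have h3 := Finset.sum_range_succ (fun n => |T b E z 0 n|) N
    have h4 := Finset.sum_range_succ' (fun n => |T b E z 0 n|) N
    have h5 : |T b E z 0 N| ≤ K := by rw [T_zero]; exact hE N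
    have h6 := abs_nonneg (T b E z 0 0)
    linarith
  have h3 : ∑ n ∈ range N, |(ep b E (n+1) : ℝ)| ≤ K * (ch b E N + 1) := by
    have h4 := Finset.sum_range_succ' (fun n => |(ep b E n : ℝ)|) N
    have h5 := sum_ep_le b E hK N
    have h6 : 0 ≤ |(ep b E 0 : ℝ)| := abs_nonneg _
    linarith
  have h0 : 0 ≤ ∑ n ∈ range N, |T b E z 0 n| := Finset.sum_nonneg (fun _ _ => abs_nonneg _)
  nlinarith

/-- Bound of the sum of the error terms. -/
theorem sum_T_le {K : ℝ} (hb : 2 ≤ b) (hK1 : 1 ≤ K) (hK : ∀ n, |(ep b E n : ℝ)| ≤ K)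
    (hE : ∀ n, |(b:ℝ) ^ n * z - E n| ≤ K) (i : ℕ) :
    ∃ C : ℝ, 0 ≤ C ∧ ∀ N, ∑ n ∈ range N, |T b E z i n| ≤ C * ((ch b E N : ℝ) + 1) ^ (i + 1) := by
  induction i with
  | zero =>
    refine ⟨2 * K, by linarith, ?_⟩
    intro N
    refine (sum_T_zero_le b E z hb hK hE N).trans ?_
    have : (0:ℝ) ≤ ch b E N := by positivity
    simp only [zero_add, pow_one]
    nlinarith
  | succ i ih =>
    obtain ⟨C, hC0, hC⟩ := ih
    refine ⟨|z| ^ (i + 1) * (2 * K) + K * C, by positivity, ?_⟩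
    intro N
    have hs : (1:ℝ) ≤ (ch b E N : ℝ) + 1 := by
      have : (0:ℝ) ≤ ch b E N := by positivity
      linarith
    have h1 : ∀ n, |T b E z (i + 1) n| ≤ |z| ^ (i + 1) * |T b E z 0 n|
        + ∑ p ∈ antidiagonal n, |(ep b E p.1 : ℝ)| * |T b E z i p.2| := by
      intro n
      rw [T_succ]
      refine (abs_add_le _ _).trans ?_
      rw [abs_mul, abs_pow]
      gcongr
      refine (Finset.abs_sum_le_sum_abs _ _).trans ?_
      apply Finset.sum_le_sum
      intro p _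
      rw [abs_mul]
    calc ∑ n ∈ range N, |T b E z (i + 1) n|
        ≤ ∑ n ∈ range N, (|z| ^ (i + 1) * |T b E z 0 n|
          + ∑ p ∈ antidiagonal n, |(ep b E p.1 : ℝ)| * |T b E z i p.2|) :=
          Finset.sum_le_sum (fun n _ => h1 n)
      _ = |z| ^ (i + 1) * ∑ n ∈ range N, |T b E z 0 n|
          + ∑ n ∈ range N, ∑ p ∈ antidiagonal n, |(ep b E p.1 : ℝ)| * |T b E z i p.2| := by
          rw [Finset.sum_add_distrib, Finset.mul_sum]
      _ ≤ |z| ^ (i + 1) * ((2 * K) * ((ch b E N : ℝ) + 1))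
          + (K * ((ch b E N : ℝ) + 1)) * (C * ((ch b E N : ℝ) + 1) ^ (i + 1)) := by
          have h2 : ∑ n ∈ range N, |T b E z 0 n| ≤ (2 * K) * ((ch b E N : ℝ) + 1) := by
            have := sum_T_zero_le b E z hb hK hE N
            nlinarith
          have h3 : ∑ n ∈ range N, |(ep b E n : ℝ)| ≤ K * ((ch b E N : ℝ) + 1) := by
            refine le_trans ?_ (sum_ep_le b E hK N)
            apply Finset.sum_le_sum_of_subset_of_nonneg
            · intro n hn; simp at hn ⊢; omega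
            · intro n _ _; exact abs_nonneg _
          have h4 := sum_antidiag_le (fun n => |(ep b E n : ℝ)|) (fun n => |T b E z i n|)
            (fun _ => abs_nonneg _) (fun _ => abs_nonneg _) N
          have h5 : 0 ≤ ∑ n ∈ range N, |T b E z i n| := Finset.sum_nonneg (fun _ _ => abs_nonneg _)
          have h6 := hC N
          gcongr
          refine h4.trans ?_
          gcongr
      _ ≤ (|z| ^ (i + 1) * (2 * K) + K * C) * ((ch b E N : ℝ) + 1) ^ (i + 1 + 1) := by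
          have h7 : ((ch b E N : ℝ) + 1) ≤ ((ch b E N : ℝ) + 1) ^ (i + 1 + 1) :=
            le_self_pow₀ hs (by omega)
          have h8 : |z| ^ (i + 1) * ((2 * K) * ((ch b E N : ℝ) + 1))
              ≤ |z| ^ (i + 1) * ((2 * K) * ((ch b E N : ℝ) + 1) ^ (i + 1 + 1)) := by gcongr
          calc _ ≤ |z| ^ (i + 1) * ((2 * K) * ((ch b E N : ℝ) + 1) ^ (i + 1 + 1))
              + (K * ((ch b E N : ℝ) + 1)) * (C * ((ch b E N : ℝ) + 1) ^ (i + 1)) := by gcongr
            _ = _ := by ring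

end

end Pool.Agent.H803R2.Lag
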