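import Pool.Agent.H803R2.Lag.Sparse

set_option autoImplicit false

/-!
Frobenius bound for the number of nonzero coefficients.
-/

open Finset PowerSeries

namespace Pool.Agent.H803R2.Lag

theorem pow_eq_expand (p : ℕ) [Fact p.Prime] (e : ℕ) (f : PowerSeries (ZMod p)) :
    f ^ (p ^ e) = expand (p ^ e) (pow_ne_zero e (Fact.out : p.Prime).ne_zero) f := by
  have h := MvPowerSeries.map_iterateFrobenius_expand p (Fact.out : p.Prime).ne_zero f e
  rw [← h]
  have h2 : iterateFrobenius (ZMod p) p e = RingHom.id _ := by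
    ext x
    rw [iterateFrobenius_def]
    simp only [RingHom.id_apply]
    clear h
    induction e with
    | zero => simp
    | succ e ih => rw [pow_succ, pow_mul, ih, ZMod.pow_card]
  rw [h2]
  simp
  rfl

theorem frob_bound (p : ℕ) [Fact p.Prime] (b : ZMod p) (f : PowerSeries (ZMod p)) (e D : ℕ)
    (hD : 1 ≤ D) (hq : D ≤ p ^ e) (N : ℕ) :
    sp N f ≤ (sp (p ^ e * N) (LL b ^ (D - 1) * f ^ D)) ^ (p ^ e / D) *
      (sp (p ^ e * N) (LL b * f)) ^ (p ^ e % D) := by
  set q := p ^ e with hqdef
  have hq0 : q ≠ 0 := pow_ne_zero e (Fact.out : p.Prime).ne_zero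
  set k := q / D with hk
  set r := q % D with hr
  have hkr : D * k + r = q := Nat.div_add_mod q D
  have hk1 : 1 ≤ k := Nat.div_pos hq (by omega)
  have hid : LL b ^ (q - k) * f ^ q = (LL b ^ (D - 1) * f ^ D) ^ k * (LL b * f) ^ r := by
    have h1 : q - k = (D - 1) * k + r := by
      have : (D - 1) * k + k = D * k := by
        obtain ⟨D', rfl⟩ : ∃ D', D = D' + 1 := ⟨D - 1, by omega⟩
        simp only [Nat.add_sub_cancel]
        ring
      omega
    have h2 : f ^ q = f ^ (D * k) * f ^ r := by rw [← pow_add, hkr]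
    rw [h1, h2, mul_pow, mul_pow, ← pow_mul, ← pow_mul, pow_add]
    ring
  have hcoeff : ∀ n, coeff (q * n) (LL b ^ (q - k) * f ^ q) = coeff n f := by
    intro n
    rw [pow_eq_expand, coeff_mul]
    rw [Finset.sum_eq_single (0, q * n)]
    · have h3 := coeff_expand_mul (p ^ e) (pow_ne_zero e (Fact.out : p.Prime).ne_zero) f n
      simp only
      rw [coeff_zero_LL_pow, one_mul, hqdef]
      exact h3
    · rintro ⟨i, j⟩ hij hne
      rw [Finset.HasAntidiagonal.mem_antidiagonal] at hij
      simp only at hij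
      by_cases hj : q ∣ j
      · have hi : q ∣ i := by
          have : q ∣ i + j := by rw [hij]; exact dvd_mul_right q n
          exact (Nat.dvd_add_left hj).mp this
        rcases Nat.eq_zero_or_pos i with hi0 | hi0
        · exfalso
          apply hne
          rw [hi0] at hij ⊢
          rw [← hij]
          simp
        · have : q ≤ i := Nat.le_of_dvd hi0 hi
          rw [coeff_LL_pow b (q - k) i (by omega), zero_mul]
      · rw [coeff_expand_of_not_dvd _ _ _ hj, mul_zero]
    · intro h
      exfalso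
      apply h
      rw [Finset.HasAntidiagonal.mem_antidiagonal]
      simp
  have h1 : sp N f ≤ sp (q * N) (LL b ^ (q - k) * f ^ q) := by
    unfold sp
    apply Finset.card_le_card_of_injOn (fun n => q * n)
    · intro n hn
      simp only [coe_filter, mem_range, Set.mem_ofPred_eq] at hn ⊢
      refine ⟨Nat.mul_lt_mul_of_pos_left hn.1 (Nat.pos_of_ne_zero hq0), ?_⟩
      rw [hcoeff]
      exact hn.2
    · intro n _ m _ h
      exact Nat.eq_of_mul_eq_mul_left (Nat.pos_of_ne_zero hq0) h
  refine h1.trans ?_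
  rw [hid]
  refine (sp_mul _ _ _).trans ?_
  exact Nat.mul_le_mul (sp_pow _ _ _) (sp_pow _ _ _)

end Pool.Agent.H803R2.Lag
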