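import Pool.Agent.H803R2.Lag.Frob
import Pool.Agent.H803R2.Lag.Analytic

set_option autoImplicit false

/-!
The relation between the truncations modulo prime powers.
-/

open Finset PowerSeries

namespace Pool.Agent.H803R2.Lag

section
variable (b : ℕ) (E a : ℕ → ℤ) (m : ℤ) (D : ℕ)

/-- The sparse series produced by the algebraic equation. -/
noncomputable def WW : PowerSeries ℤ :=
  ∑ i ∈ range D, C (a (i + 1) * m ^ (D - 1 - i)) * (LL (b:ℤ) ^ i * mk E ^ (i + 1))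
    + C (a 0 * m ^ D) * mk (fun n => (b:ℤ) ^ n)

theorem sp_WW_le {K : ℝ} (z : ℝ) (hb : 2 ≤ b) (hK1 : 1 ≤ K)
    (hK : ∀ n, |(ep b E n : ℝ)| ≤ K) (hE : ∀ n, |(b:ℝ) ^ n * z - E n| ≤ K)
    (hrel : ∑ i ∈ range D, (a (i + 1) : ℝ) * (m:ℝ) ^ (D - 1 - i) * z ^ (i + 1)
      + (a 0 : ℝ) * (m:ℝ) ^ D = 0) :
    ∃ c : ℕ, ∀ N, sp N (WW b E a m D) ≤ c * (ch b E N + 1) ^ D := by
  choose Cf hCf0 hCf using fun i => sum_T_le b E z hb hK1 hK hE i
  obtain ⟨c, hc⟩ := exists_nat_ge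
    (∑ i ∈ range D, |(a (i + 1) : ℝ) * (m:ℝ) ^ (D - 1 - i)| * Cf i)
  refine ⟨c, ?_⟩
  intro N
  have hcoef : ∀ n, ((coeff n (WW b E a m D) : ℤ) : ℝ)
      = - ∑ i ∈ range D, (a (i + 1) : ℝ) * (m:ℝ) ^ (D - 1 - i) * T b E z i n := by
    intro n
    rw [WW, map_add, map_sum, coeff_C_mul, coeff_mk]
    push_cast
    have h1 : ∑ i ∈ range D, ((coeff n (C (a (i + 1) * m ^ (D - 1 - i)) *
        (LL (b:ℤ) ^ i * mk E ^ (i + 1))) : ℤ) : ℝ)
        = ∑ i ∈ range D, (a (i + 1) : ℝ) * (m:ℝ) ^ (D - 1 - i) * ((b:ℝ) ^ n * z ^ (i + 1))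
          - ∑ i ∈ range D, (a (i + 1) : ℝ) * (m:ℝ) ^ (D - 1 - i) * T b E z i n := by
      rw [← Finset.sum_sub_distrib]
      apply Finset.sum_congr rfl
      intro i _
      rw [coeff_C_mul, T]
      push_cast
      ring
    rw [h1]
    have h2 : ∑ i ∈ range D, (a (i + 1) : ℝ) * (m:ℝ) ^ (D - 1 - i) * ((b:ℝ) ^ n * z ^ (i + 1))
        = (b:ℝ) ^ n * ∑ i ∈ range D, (a (i + 1) : ℝ) * (m:ℝ) ^ (D - 1 - i) * z ^ (i + 1) := by
      rw [Finset.mul_sum]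
      apply Finset.sum_congr rfl
      intro i _
      ring
    rw [h2]
    have h3 : ∑ i ∈ range D, (a (i + 1) : ℝ) * (m:ℝ) ^ (D - 1 - i) * z ^ (i + 1)
      = - ((a 0 : ℝ) * (m:ℝ) ^ D) := by linarith
    rw [h3]
    ring
  have hs : (1:ℝ) ≤ (ch b E N : ℝ) + 1 := by
    have : (0:ℝ) ≤ ch b E N := by positivity
    linarith
  have h1 : (sp N (WW b E a m D) : ℝ) ≤ ∑ n ∈ range N, |((coeff n (WW b E a m D) : ℤ) : ℝ)| := by
    unfold sp
    rw [← nsmul_one, ← Finset.sum_const]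
    refine le_trans (Finset.sum_le_sum (g := fun n => |((coeff n (WW b E a m D) : ℤ) : ℝ)|) ?_) ?_
    · intro n hn
      rw [mem_filter] at hn
      have : (1:ℤ) ≤ |coeff n (WW b E a m D)| := Int.one_le_abs hn.2
      exact_mod_cast this
    · apply Finset.sum_le_sum_of_subset_of_nonneg (Finset.filter_subset _ _)
      intro n _ _
      exact abs_nonneg _
  have h2 : ∑ n ∈ range N, |((coeff n (WW b E a m D) : ℤ) : ℝ)|
      ≤ (c:ℝ) * ((ch b E N : ℝ) + 1) ^ D := by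
    calc ∑ n ∈ range N, |((coeff n (WW b E a m D) : ℤ) : ℝ)|
        ≤ ∑ n ∈ range N, ∑ i ∈ range D,
          |(a (i + 1) : ℝ) * (m:ℝ) ^ (D - 1 - i)| * |T b E z i n| := by
          apply Finset.sum_le_sum
          intro n _
          rw [hcoef, abs_neg]
          refine (Finset.abs_sum_le_sum_abs _ _).trans ?_
          apply Finset.sum_le_sum
          intro i _
          rw [abs_mul (_ * _) (T b E z i n)]
      _ = ∑ i ∈ range D, |(a (i + 1) : ℝ) * (m:ℝ) ^ (D - 1 - i)| *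
          ∑ n ∈ range N, |T b E z i n| := by
          rw [Finset.sum_comm]
          apply Finset.sum_congr rfl
          intro i _
          rw [Finset.mul_sum]
      _ ≤ ∑ i ∈ range D, |(a (i + 1) : ℝ) * (m:ℝ) ^ (D - 1 - i)| * Cf i *
          ((ch b E N : ℝ) + 1) ^ D := by
          apply Finset.sum_le_sum
          intro i hi
          rw [mem_range] at hi
          have h3 := hCf i N
          have h4 : ((ch b E N : ℝ) + 1) ^ (i + 1) ≤ ((ch b E N : ℝ) + 1) ^ D :=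
            pow_le_pow_right₀ hs (by omega)
          have h5 := hCf0 i
          calc _ ≤ |(a (i + 1) : ℝ) * (m:ℝ) ^ (D - 1 - i)| *
                (Cf i * ((ch b E N : ℝ) + 1) ^ (i + 1)) := by gcongr
            _ ≤ |(a (i + 1) : ℝ) * (m:ℝ) ^ (D - 1 - i)| *
                (Cf i * ((ch b E N : ℝ) + 1) ^ D) := by gcongr
            _ = _ := by ring
      _ = (∑ i ∈ range D, |(a (i + 1) : ℝ) * (m:ℝ) ^ (D - 1 - i)| * Cf i) *
          ((ch b E N : ℝ) + 1) ^ D := by rw [Finset.sum_mul]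
      _ ≤ _ := by gcongr
  have h3 := h1.trans h2
  exact_mod_cast h3

end

section
variable {b : ℕ} {E a : ℕ → ℤ} {m : ℤ} {D : ℕ}

/-- Divisibility after removing the sparse part. -/
theorem dvd_of_coeff_zero (p : ℕ) [Fact p.Prime] {k j : ℕ} (hk : (p:ℤ) ^ k ∣ m) (hjk : j < k)
    (ha : ¬ (p:ℤ) ∣ a D) (hD : 1 ≤ D) (E1 : PowerSeries ℤ) (n : ℕ)
    (h : ∑ i ∈ range D, a (i + 1) * m ^ (D - 1 - i) * ((p:ℤ) ^ (j * (i + 1)) *
      coeff n (LL (b:ℤ) ^ i * E1 ^ (i + 1))) + a 0 * m ^ D * (b:ℤ) ^ n = 0) :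
    (p:ℤ) ∣ coeff n (LL (b:ℤ) ^ (D - 1) * E1 ^ D) := by
  have hp : Prime (p:ℤ) := Nat.prime_iff_prime_int.mp Fact.out
  obtain ⟨D', rfl⟩ : ∃ D', D = D' + 1 := ⟨D - 1, by omega⟩
  rw [Finset.sum_range_succ] at h
  simp only [Nat.add_sub_cancel, Nat.sub_self, pow_zero, mul_one] at h ⊢
  have hm : ∀ t, (p:ℤ) ^ ((j + 1) * t) ∣ m ^ t := by
    intro t
    rw [pow_mul]
    apply pow_dvd_pow_of_dvd
    exact (pow_dvd_pow _ hjk).trans hk
  have h1 : (p:ℤ) ^ (j * (D' + 1) + 1) ∣ ∑ i ∈ range D', a (i + 1) * m ^ (D' - i) *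
      ((p:ℤ) ^ (j * (i + 1)) * coeff n (LL (b:ℤ) ^ i * E1 ^ (i + 1))) := by
    apply Finset.dvd_sum
    intro i hi
    rw [mem_range] at hi
    have h2 : (p:ℤ) ^ (j * (D' + 1) + 1) ∣ m ^ (D' - i) * (p:ℤ) ^ (j * (i + 1)) := by
      refine dvd_trans ?_ (mul_dvd_mul_right (hm (D' - i)) _)
      rw [← pow_add]
      apply pow_dvd_pow
      have e : D' + 1 = (D' - i) + (i + 1) := by omega
      have e2 : (j + 1) * (D' - i) + j * (i + 1) = j * ((D' - i) + (i + 1)) + (D' - i) := by ring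
      rw [e2, ← e]
      omega
    have h3 : a (i + 1) * m ^ (D' - i) * ((p:ℤ) ^ (j * (i + 1)) *
        coeff n (LL (b:ℤ) ^ i * E1 ^ (i + 1)))
        = (m ^ (D' - i) * (p:ℤ) ^ (j * (i + 1))) *
          (a (i + 1) * coeff n (LL (b:ℤ) ^ i * E1 ^ (i + 1))) := by ring
    rw [h3]
    exact dvd_mul_of_dvd_left h2 _
  have h4 : (p:ℤ) ^ (j * (D' + 1) + 1) ∣ a 0 * m ^ (D' + 1) * (b:ℤ) ^ n := by
    apply dvd_mul_of_dvd_left
    apply dvd_mul_of_dvd_right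
    refine dvd_trans ?_ (hm (D' + 1))
    apply pow_dvd_pow
    nlinarith
  have h5 : (p:ℤ) ^ (j * (D' + 1) + 1) ∣ a (D' + 1) * ((p:ℤ) ^ (j * (D' + 1)) *
      coeff n (LL (b:ℤ) ^ D' * E1 ^ (D' + 1))) := by
    have : a (D' + 1) * ((p:ℤ) ^ (j * (D' + 1)) * coeff n (LL (b:ℤ) ^ D' * E1 ^ (D' + 1)))
        = -(∑ i ∈ range D', a (i + 1) * m ^ (D' - i) *
      ((p:ℤ) ^ (j * (i + 1)) * coeff n (LL (b:ℤ) ^ i * E1 ^ (i + 1))))
        - a 0 * m ^ (D' + 1) * (b:ℤ) ^ n := by linarith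
    rw [this]
    exact dvd_sub (dvd_neg.mpr h1) h4
  have h6 : (p:ℤ) ^ (j * (D' + 1)) * (p:ℤ) ∣ (p:ℤ) ^ (j * (D' + 1)) *
      (a (D' + 1) * coeff n (LL (b:ℤ) ^ D' * E1 ^ (D' + 1))) := by
    rw [← pow_succ]
    convert h5 using 1
    ring
  have h7 := Int.dvd_of_mul_dvd_mul_left (pow_ne_zero _ hp.ne_zero) h6
  exact (hp.dvd_mul.mp h7).resolve_left ha

end

end Pool.Agent.H803R2.Lag
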