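import Pool.Agent.H803R2.Lag.Main

set_option autoImplicit false

/-!
Digits: a linear relation with few failures forces long runs of zeros or of `b - 1`.
-/

open Finset PowerSeries

namespace Pool.Agent.H803R2.Lag

open Pool.Agent.H803R2.PerDist (dig dig_nonneg dig_le)

/-- The integer whose base `b` digits are the digits `n + 1, ..., n + h` of `x`. -/
noncomputable def win (b : ℕ) (x : ℝ) (n h : ℕ) : ℤ :=
  ⌊(b:ℝ) ^ (n + h) * x⌋ - (b:ℤ) ^ h * ⌊(b:ℝ) ^ n * x⌋

theorem win_succ (b : ℕ) (x : ℝ) (n h : ℕ) :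
    win b x n (h + 1) = b * win b x n h + dig b x (n + 1 + h) := by
  have e : n + 1 + h = n + (h + 1) := by ring
  have e2 : n + (h + 1) - 1 = n + h := by omega
  unfold win dig
  rw [e, e2]
  ring

theorem win_zero (b : ℕ) (x : ℝ) (n : ℕ) : win b x n 0 = 0 := by simp [win]

theorem win_bounds {b : ℕ} (hb : 2 ≤ b) (x : ℝ) (n h : ℕ) :
    0 ≤ win b x n h ∧ win b x n h ≤ (b:ℤ) ^ h - 1 := by
  induction h with
  | zero => rw [win_zero]; simp
  | succ h ih =>
    have h1 := dig_nonneg hb x (n := n + 1 + h) (by omega)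
    have h2 := dig_le hb x (n := n + 1 + h) (by omega)
    have hb' : (0:ℤ) ≤ b := by positivity
    rw [win_succ, pow_succ]
    have h3 : 0 ≤ (b:ℤ) * win b x n h := mul_nonneg hb' ih.1
    have h4 : (b:ℤ) * win b x n h ≤ b * ((b:ℤ) ^ h - 1) := mul_le_mul_of_nonneg_left ih.2 hb'
    constructor
    · linarith
    · linarith

theorem win_eq_zero {b : ℕ} (hb : 2 ≤ b) (x : ℝ) (n h : ℕ) (h0 : win b x n h = 0) :
    ∀ i < h, dig b x (n + 1 + i) = 0 := by
  induction h with
  | zero => intro i hi; omega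
  | succ h ih =>
    have h1 := dig_nonneg hb x (n := n + 1 + h) (by omega)
    have h3 := (win_bounds hb x n h).1
    have hb' : (2:ℤ) ≤ b := by exact_mod_cast hb
    rw [win_succ] at h0
    have h4 : win b x n h = 0 := by nlinarith
    have h5 : dig b x (n + 1 + h) = 0 := by rw [h4] at h0; linarith
    intro i hi
    rcases Nat.lt_or_ge i h with h6 | h6
    · exact ih h4 i h6
    · have : i = h := by omega
      rw [this]; exact h5

theorem win_eq_top {b : ℕ} (hb : 2 ≤ b) (x : ℝ) (n h : ℕ) (h0 : win b x n h = (b:ℤ) ^ h - 1) :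
    ∀ i < h, dig b x (n + 1 + i) = b - 1 := by
  induction h with
  | zero => intro i hi; omega
  | succ h ih =>
    have h1 := dig_le hb x (n := n + 1 + h) (by omega)
    have h3 := (win_bounds hb x n h).2
    have hb' : (2:ℤ) ≤ b := by exact_mod_cast hb
    rw [win_succ, pow_succ] at h0
    have h4 : win b x n h = (b:ℤ) ^ h - 1 := by nlinarith
    have h5 : dig b x (n + 1 + h) = b - 1 := by rw [h4] at h0; linarith
    intro i hi
    rcases Nat.lt_or_ge i h with h6 | h6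
    · exact ih h4 i h6
    · have : i = h := by omega
      rw [this]; exact h5

/-- Number of bad residues through prime powers. -/
theorem gg_le_sum (E : ℕ → ℤ) {M : ℕ} (hM : 1 ≤ M) (N : ℕ) :
    gg E (M:ℤ) N ≤ ∑ p ∈ M.primeFactors, gg E ((p:ℤ) ^ M.factorization p) N := by
  classical
  unfold gg
  refine le_trans (Finset.card_le_card (t := M.primeFactors.biUnion
    (fun p => (range N).filter (fun n => ¬ (p:ℤ) ^ M.factorization p ∣ E n))) ?_)
    Finset.card_biUnion_le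
  intro n hn
  rw [mem_filter] at hn
  have h1 : ¬ M ∣ (E n).natAbs := by
    intro h
    exact hn.2 (Int.natCast_dvd.mpr h)
  rw [Nat.dvd_iff_prime_pow_dvd_dvd] at h1
  push Not at h1
  obtain ⟨p, k, hp, h2, h3⟩ := h1
  rw [mem_biUnion]
  have hk : 1 ≤ k := by
    by_contra h
    have : k = 0 := by omega
    rw [this] at h3
    simp at h3
  refine ⟨p, ?_, ?_⟩
  · rw [Nat.mem_primeFactors]
    exact ⟨hp, (dvd_pow_self p (by omega)).trans h2, by omega⟩
  · rw [mem_filter]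
    refine ⟨hn.1, ?_⟩
    intro h4
    apply h3
    have h5 : k ≤ M.factorization p := (hp.pow_dvd_iff_le_factorization (by omega)).mp h2
    have h6 : ((p ^ M.factorization p : ℕ) : ℤ) ∣ E n := by exact_mod_cast h4
    exact (pow_dvd_pow p h5).trans (Int.natCast_dvd.mp h6)


section
variable (b m : ℕ) (q : ℕ → ℤ) (x : ℝ)

/-- Value of the homogeneous relation at `n`. -/
noncomputable def rel (n : ℕ) : ℤ := ∑ j ∈ range (m + 1), q j * dig b x (n + j)

/-- Truncations of `A x`. -/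
noncomputable def EE (n : ℕ) : ℤ := ∑ j ∈ range (m + 1), q j * ⌊(b:ℝ) ^ (n + j) * x⌋

/-- The value of the relation at `b`. -/
def AA : ℤ := ∑ j ∈ range (m + 1), q j * (b:ℤ) ^ j

theorem ep_EE (n : ℕ) : ep b (EE b m q x) (n + 1) = rel b m q x (n + 1) := by
  simp only [ep, EE, rel, dig]
  rw [Finset.mul_sum, ← Finset.sum_sub_distrib]
  apply Finset.sum_congr rfl
  intro j _
  have e : n + 1 + j - 1 = n + j := by omega
  rw [e]
  ring

theorem EE_approx (n : ℕ) :
    |(b:ℝ) ^ n * ((AA b m q : ℝ) * x) - EE b m q x n| ≤ ∑ j ∈ range (m + 1), |(q j : ℝ)| := by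
  have h1 : (b:ℝ) ^ n * ((AA b m q : ℝ) * x) - EE b m q x n
      = ∑ j ∈ range (m + 1), (q j : ℝ) * ((b:ℝ) ^ (n + j) * x - ⌊(b:ℝ) ^ (n + j) * x⌋) := by
    unfold AA EE
    push_cast
    rw [Finset.sum_mul, Finset.mul_sum, ← Finset.sum_sub_distrib]
    apply Finset.sum_congr rfl
    intro j _
    rw [pow_add]
    ring
  rw [h1]
  refine (Finset.abs_sum_le_sum_abs _ _).trans (Finset.sum_le_sum ?_)
  intro j _
  rw [abs_mul]
  have h2 := Int.floor_le ((b:ℝ) ^ (n + j) * x)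
  have h3 := Int.lt_floor_add_one ((b:ℝ) ^ (n + j) * x)
  have h4 : |(b:ℝ) ^ (n + j) * x - ⌊(b:ℝ) ^ (n + j) * x⌋| ≤ 1 := by
    rw [abs_le]; constructor <;> linarith
  calc |(q j : ℝ)| * |(b:ℝ) ^ (n + j) * x - ⌊(b:ℝ) ^ (n + j) * x⌋| ≤ |(q j : ℝ)| * 1 := by gcongr
    _ = _ := mul_one _

theorem ch_EE (N : ℕ) :
    ch b (EE b m q x) N = ((Icc 1 N).filter (fun n => rel b m q x n ≠ 0)).card := by
  unfold ch
  congr 1
  apply Finset.filter_congr
  intro n hn
  rw [mem_Icc] at hn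
  obtain ⟨k, rfl⟩ : ∃ k, n = k + 1 := ⟨n - 1, by omega⟩
  rw [ep_EE]

theorem E_pow {E : ℕ → ℤ} {n : ℕ} (L : ℕ)
    (hz : ∀ i, 1 ≤ i → i ≤ L → ep b E (n + i) = 0) : E (n + L) = (b:ℤ) ^ L * E n := by
  induction L with
  | zero => simp
  | succ L ih =>
    have h1 := hz (L + 1) (by omega) le_rfl
    rw [← Nat.add_assoc] at h1
    simp only [ep] at h1
    rw [ih (fun i h1 h2 => hz i h1 (by omega))] at h1
    rw [← Nat.add_assoc, pow_succ]
    linarith

end

/-- Divisibility and a long valid stretch of the relation give a constant window. -/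
theorem const_window {b : ℕ} (hb : 2 ≤ b) (m : ℕ) (q : ℕ → ℤ) (x : ℝ) (hA : AA b m q ≠ 0)
    (H L : ℕ) (hL : (∑ j ∈ range (m + 1), |(q j : ℝ)|) * (b:ℝ) ^ H < (b:ℝ) ^ L) (n : ℕ)
    (hdiv : AA b m q ∣ EE b m q x n)
    (hz : ∀ i, 1 ≤ i → i ≤ L → ep b (EE b m q x) (n + i) = 0) :
    (∀ i < H, dig b x (n + 1 + i) = 0) ∨ (∀ i < H, dig b x (n + 1 + i) = b - 1) := by
  obtain ⟨t, ht⟩ := hdiv
  have hb1 : (1:ℝ) ≤ b := by exact_mod_cast (by omega : 1 ≤ b)
  have h1 := EE_approx b m q x (n + L)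
  rw [E_pow b L hz, ht] at h1
  set Λ := ∑ j ∈ range (m + 1), |(q j : ℝ)| with hΛ
  have hbL : (0:ℝ) < (b:ℝ) ^ L := by positivity
  have hbH : (1:ℝ) ≤ (b:ℝ) ^ H := one_le_pow₀ hb1
  have hA1 : (1:ℝ) ≤ |(AA b m q : ℝ)| := by
    have : (1:ℤ) ≤ |AA b m q| := Int.one_le_abs hA
    exact_mod_cast this
  set y := (b:ℝ) ^ n * x with hy
  have h2 : (b:ℝ) ^ (n + L) * ((AA b m q : ℝ) * x)
      - (((b:ℤ) ^ L * (AA b m q * t) : ℤ) : ℝ) = (b:ℝ) ^ L * ((AA b m q : ℝ) * (y - t)) := by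
    rw [hy, pow_add]
    push_cast
    ring
  rw [h2, abs_mul, abs_mul, abs_of_pos hbL] at h1
  have h3 : (b:ℝ) ^ L * |y - t| ≤ Λ := by
    refine le_trans ?_ h1
    have : |y - t| ≤ |(AA b m q : ℝ)| * |y - t| := by
      have := abs_nonneg (y - t)
      nlinarith
    gcongr
  have h4 : |y - t| * (b:ℝ) ^ H < 1 := by
    have h5 : (b:ℝ) ^ L * (|y - t| * (b:ℝ) ^ H) < (b:ℝ) ^ L * 1 := by
      calc (b:ℝ) ^ L * (|y - t| * (b:ℝ) ^ H) = ((b:ℝ) ^ L * |y - t|) * (b:ℝ) ^ H := by ring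
        _ ≤ Λ * (b:ℝ) ^ H := by gcongr
        _ < (b:ℝ) ^ L := hL
        _ = _ := (mul_one _).symm
    exact lt_of_mul_lt_mul_left h5 hbL.le
  have h5 : |y - t| < 1 := by
    have := abs_nonneg (y - t)
    nlinarith
  have hyH : (b:ℝ) ^ (n + H) * x = (b:ℝ) ^ H * y := by rw [hy, pow_add]; ring
  rw [abs_lt] at h5
  rcases le_or_gt (t:ℝ) y with h6 | h6
  · left
    apply win_eq_zero hb
    have h7 : ⌊y⌋ = t := by
      rw [Int.floor_eq_iff]
      constructor <;> linarith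
    have h8 : ⌊(b:ℝ) ^ H * y⌋ = (b:ℤ) ^ H * t := by
      rw [Int.floor_eq_iff]
      push_cast
      rw [abs_of_nonneg (by linarith)] at h4
      constructor <;> nlinarith
    unfold win
    rw [hyH, h8, ← hy, h7]
    ring
  · right
    apply win_eq_top hb
    have h7 : ⌊y⌋ = t - 1 := by
      rw [Int.floor_eq_iff]
      push_cast
      constructor <;> linarith
    have h8 : ⌊(b:ℝ) ^ H * y⌋ = (b:ℤ) ^ H * t - 1 := by
      rw [Int.floor_eq_iff]
      push_cast
      rw [abs_of_neg (by linarith)] at h4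
      constructor <;> nlinarith
    unfold win
    rw [hyH, h8, ← hy, h7]
    ring

/-- Rigidity for homogeneous relations. -/
theorem rigidity {b : ℕ} (hb : 2 ≤ b) (m : ℕ) (q : ℕ → ℤ) (x : ℝ) (P : Polynomial ℤ)
    (hD : 1 ≤ P.natDegree) (hx : Polynomial.aeval x P = 0) (hA : AA b m q ≠ 0)
    (hc : IsCoprime P.leadingCoeff (AA b m q)) (κ : ℕ) (hκ2 : 2 ≤ κ)
    (hκ : ∀ p ∈ (AA b m q).natAbs.primeFactors, ∃ e, P.natDegree ≤ p ^ e ∧
      (p ^ e) ^ ((AA b m q).natAbs.factorization p) ≤ κ) (H : ℕ) :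
    ∃ c : ℕ, ∀ N : ℕ,
      ((Icc 1 N).filter (fun n => ¬ ((∀ i < H, dig b x (n + i) = 0) ∨
        (∀ i < H, dig b x (n + i) = b - 1)))).card
      ≤ c * (((Icc 1 (κ * N)).filter (fun n => rel b m q x n ≠ 0)).card + 1) ^ κ := by
  classical
  set A := AA b m q with hAdef
  set M := A.natAbs with hM
  have hM1 : 1 ≤ M := Int.natAbs_pos.mpr hA
  set D := P.natDegree with hDdef
  set a : ℕ → ℤ := fun i => P.coeff i with ha
  set E := EE b m q x with hE
  set Λ := ∑ j ∈ range (m + 1), |(q j : ℝ)| with hΛ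
  have hΛ0 : 0 ≤ Λ := Finset.sum_nonneg (fun _ _ => abs_nonneg _)
  have hb1 : (1:ℝ) ≤ b := by exact_mod_cast (by omega : 1 ≤ b)
  -- the bound of the signed digits
  have hK : ∀ n, |(ep b E n : ℝ)| ≤ |(E 0 : ℝ)| + Λ * b + 1 := by
    intro n
    cases n with
    | zero =>
      simp only [ep]
      have : 0 ≤ Λ * b := by positivity
      linarith
    | succ n =>
      rw [hE, ep_EE, rel]
      have h6 : |((∑ j ∈ range (m + 1), q j * dig b x (n + 1 + j) : ℤ) : ℝ)| ≤ Λ * b := by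
        push_cast
        refine (Finset.abs_sum_le_sum_abs _ _).trans ?_
        rw [hΛ, Finset.sum_mul]
        apply Finset.sum_le_sum
        intro j _
        rw [abs_mul]
        have h1 := dig_nonneg hb x (n := n + 1 + j) (by omega)
        have h2 := dig_le hb x (n := n + 1 + j) (by omega)
        have h3 : |dig b x (n + 1 + j)| ≤ (b:ℤ) := by rw [abs_le]; constructor <;> linarith
        have h4 : |(dig b x (n + 1 + j) : ℝ)| ≤ (b:ℝ) := by exact_mod_cast h3
        gcongr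
      have := abs_nonneg (EE b m q x 0 : ℝ)
      linarith
  have hK1 : (1:ℝ) ≤ |(E 0 : ℝ)| + Λ * b + 1 := by
    have h1 := abs_nonneg (E 0 : ℝ)
    have : 0 ≤ Λ * b := by positivity
    linarith
  have happ : ∀ n, |(b:ℝ) ^ n * ((A : ℝ) * x) - E n| ≤ |(E 0 : ℝ)| + Λ * b + 1 := by
    intro n
    refine (EE_approx b m q x n).trans ?_
    rw [← hΛ]
    have h1 := abs_nonneg (E 0 : ℝ)
    nlinarith
  have hrel : ∑ i ∈ range D, (a (i + 1) : ℝ) * (A:ℝ) ^ (D - 1 - i) *
      ((A:ℝ) * x) ^ (i + 1) + (a 0 : ℝ) * (A:ℝ) ^ D = 0 := by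
    set μ := (A:ℝ) with hμ
    have h1 : ∑ i ∈ range (D + 1), (a i : ℝ) * x ^ i = 0 := by
      rw [← hx, Polynomial.aeval_eq_sum_range]
      apply Finset.sum_congr rfl
      intro i _
      simp [ha]
    rw [Finset.sum_range_succ'] at h1
    have h2 : ∑ i ∈ range D, (a (i + 1) : ℝ) * μ ^ (D - 1 - i) * (μ * x) ^ (i + 1)
        = μ ^ D * ∑ i ∈ range D, (a (i + 1) : ℝ) * x ^ (i + 1) := by
      rw [Finset.mul_sum]
      apply Finset.sum_congr rfl
      intro i hi
      rw [mem_range] at hi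
      have h3 : μ ^ D = μ ^ (D - 1 - i) * μ ^ (i + 1) := by rw [← pow_add]; congr 1; omega
      rw [h3, mul_pow]
      ring
    rw [h2]
    simp only [pow_zero, mul_one] at h1
    have h4 : ∑ i ∈ range D, (a (i + 1) : ℝ) * x ^ (i + 1) = - (a 0 : ℝ) := by linarith
    rw [h4]
    ring
  obtain ⟨cW, hcW⟩ := sp_WW_le b E a A D ((A:ℝ) * x) hb hK1 hK happ hrel
  set Bf : ℕ → ℕ := fun N => (cW + 1) * (ch b E N + 1) with hBf
  have hB1 : ∀ N, 1 ≤ Bf N := fun N => Nat.mul_pos (by omega) (by omega)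
  have hBm : Monotone Bf := by
    intro N N' hNN
    exact Nat.mul_le_mul_left _ (Nat.add_le_add_right (ch_mono b E hNN) 1)
  have hA' : ∀ N, sp N (mk (ep b E)) ≤ Bf N := by
    intro N
    refine (sp_ep b E N).trans ?_
    exact Nat.le_mul_of_pos_left _ (by omega)
  have hW : ∀ N, sp N (WW b E a A D) ≤ (Bf N) ^ D := by
    intro N
    refine (hcW N).trans ?_
    simp only [hBf]
    rw [mul_pow]
    apply Nat.mul_le_mul_right
    calc cW ≤ (cW + 1) ^ 1 := by rw [pow_one]; omega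
      _ ≤ (cW + 1) ^ D := Nat.pow_le_pow_right (by omega) hD
  -- all primes
  have hp : ∀ p ∈ M.primeFactors, ∃ c : ℕ, ∀ N,
      gg E ((p:ℤ) ^ M.factorization p) N ≤ c * (Bf (κ * N)) ^ κ := by
    intro p hpM
    obtain ⟨e, he, hκe⟩ := hκ p hpM
    have hpp : p.Prime := Nat.prime_of_mem_primeFactors hpM
    have : Fact p.Prime := ⟨hpp⟩
    have hdvd : (p:ℤ) ^ M.factorization p ∣ A := by
      have h1 : ((p ^ M.factorization p : ℕ) : ℤ) ∣ A :=
        Int.natCast_dvd.mpr (Nat.ordProj_dvd M p)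
      exact_mod_cast h1
    have hlc : ¬ (p:ℤ) ∣ a D := by
      intro h1
      have h2 : (p:ℤ) ∣ A := Int.natCast_dvd.mpr (Nat.dvd_of_mem_primeFactors hpM)
      have h3 : (p:ℤ) ∣ P.leadingCoeff := h1
      have h4 : IsUnit (p:ℤ) := hc.isUnit_of_dvd' h3 h2
      exact (Nat.prime_iff_prime_int.mp hpp).not_isUnit h4
    obtain ⟨c, hcN⟩ := g_bound (b := b) (E := E) (a := a) (m := A) (D := D) p hdvd hlc hD e he
      Bf hB1 hBm hA' hW (M.factorization p) le_rfl
    refine ⟨c, ?_⟩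
    intro N
    refine (hcN N).trans (Nat.mul_le_mul_left _ ?_)
    have h5 : (p ^ e) ^ M.factorization p * N ≤ κ * N := Nat.mul_le_mul_right _ hκe
    calc _ ≤ (Bf (κ * N)) ^ ((p ^ e) ^ M.factorization p) := Nat.pow_le_pow_left (hBm h5) _
      _ ≤ (Bf (κ * N)) ^ κ := Nat.pow_le_pow_right (hB1 _) hκe
  choose! c hcp using hp
  -- the length of the valid stretch
  obtain ⟨L, hL⟩ : ∃ L : ℕ, Λ * (b:ℝ) ^ H < (b:ℝ) ^ L :=
    pow_unbounded_of_one_lt _ (by exact_mod_cast (by omega : 1 < b))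
  refine ⟨(∑ p ∈ M.primeFactors, c p) * (cW + 1) ^ κ + 2 * L, ?_⟩
  intro N
  have h1 : ((Icc 1 N).filter (fun n => ¬ ((∀ i < H, dig b x (n + i) = 0) ∨
        (∀ i < H, dig b x (n + i) = b - 1)))).card
      ≤ gg E (M:ℤ) N + ((range N).filter (fun n => ∃ i, 1 ≤ i ∧ i ≤ L ∧
        ep b E (n + i) ≠ 0)).card := by
    unfold gg
    refine le_trans ?_ (Finset.card_union_le _ _)
    apply Finset.card_le_card_of_injOn (fun n => n - 1)
    · intro n hn
      simp only [coe_filter, mem_Icc, Set.mem_ofPred_eq] at hn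
      simp only [coe_union, coe_filter, mem_range, Set.mem_union, Set.mem_ofPred_eq]
      obtain ⟨k, rfl⟩ : ∃ k, n = k + 1 := ⟨n - 1, by omega⟩
      rw [Nat.add_sub_cancel]
      by_contra hcon
      push Not at hcon
      apply hn.2
      have h2 : A ∣ E k := by
        have := hcon.1 (by omega)
        exact Int.natAbs_dvd.mp this
      exact const_window hb m q x hA H L hL k h2 (fun i hi1 hi2 => hcon.2 (by omega) i hi1 hi2)
    · intro n hn n' hn' heq
      simp only [coe_filter, mem_Icc, Set.mem_ofPred_eq] at hn hn'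
      simp only at heq
      omega
  have h2 := gg_le_sum E hM1 N
  have h3 : ∑ p ∈ M.primeFactors, gg E ((p:ℤ) ^ M.factorization p) N
      ≤ ∑ p ∈ M.primeFactors, c p * (Bf (κ * N)) ^ κ :=
    Finset.sum_le_sum (fun p hpM => hcp p hpM N)
  rw [← Finset.sum_mul] at h3
  have h4 : ((range N).filter (fun n => ∃ i, 1 ≤ i ∧ i ≤ L ∧ ep b E (n + i) ≠ 0)).card
      ≤ 2 * L * (ch b E (κ * N) + 1) := by
    rcases Nat.lt_or_ge N L with hNL | hNL
    · calc _ ≤ (range N).card := Finset.card_filter_le _ _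
        _ = N := card_range N
        _ ≤ 2 * L * 1 := by omega
        _ ≤ _ := Nat.mul_le_mul_left _ (by omega)
    · have h5 : ((range N).filter (fun n => ∃ i, 1 ≤ i ∧ i ≤ L ∧ ep b E (n + i) ≠ 0))
          ⊆ (Icc 1 L).biUnion (fun i => (range N).filter (fun n => ep b E (n + i) ≠ 0)) := by
        intro n hn
        rw [mem_filter] at hn
        obtain ⟨i, hi1, hi2, hne⟩ := hn.2
        rw [mem_biUnion]
        exact ⟨i, mem_Icc.mpr ⟨hi1, hi2⟩, mem_filter.mpr ⟨hn.1, hne⟩⟩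
      refine (Finset.card_le_card h5).trans ?_
      refine Finset.card_biUnion_le.trans ?_
      calc ∑ i ∈ Icc 1 L, ((range N).filter (fun n => ep b E (n + i) ≠ 0)).card
          ≤ ∑ i ∈ Icc 1 L, ch b E (κ * N) := by
            apply Finset.sum_le_sum
            intro i hi
            rw [mem_Icc] at hi
            unfold ch
            apply Finset.card_le_card_of_injOn (fun n => n + i)
            · intro n hn
              simp only [coe_filter, mem_range, mem_Icc, Set.mem_ofPred_eq] at hn ⊢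
              refine ⟨⟨by omega, ?_⟩, hn.2⟩
              have : 2 * N ≤ κ * N := Nat.mul_le_mul_right _ hκ2
              omega
            · intro n _ n' _ h
              exact Nat.add_right_cancel h
        _ = L * ch b E (κ * N) := by rw [Finset.sum_const, smul_eq_mul, Nat.card_Icc]; simp
        _ ≤ 2 * L * (ch b E (κ * N) + 1) := by nlinarith
  have h5 : ch b E (κ * N) + 1 ≤ (ch b E (κ * N) + 1) ^ κ := by
    calc ch b E (κ * N) + 1 = (ch b E (κ * N) + 1) ^ 1 := (pow_one _).symm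
      _ ≤ _ := Nat.pow_le_pow_right (by omega) (by omega)
  have h6 : (∑ p ∈ M.primeFactors, c p) * (Bf (κ * N)) ^ κ
      = (∑ p ∈ M.primeFactors, c p) * (cW + 1) ^ κ * (ch b E (κ * N) + 1) ^ κ := by
    simp only [hBf]
    rw [mul_pow]
    ring
  rw [← ch_EE, ← hE]
  calc _ ≤ (∑ p ∈ M.primeFactors, c p) * (cW + 1) ^ κ * (ch b E (κ * N) + 1) ^ κ
        + 2 * L * (ch b E (κ * N) + 1) := by omega
    _ ≤ (∑ p ∈ M.primeFactors, c p) * (cW + 1) ^ κ * (ch b E (κ * N) + 1) ^ κ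
        + 2 * L * (ch b E (κ * N) + 1) ^ κ := by
        have := Nat.mul_le_mul_left (2 * L) h5
        omega
    _ = _ := by ring

end Pool.Agent.H803R2.Lag
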