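import Pool.Agent.H803R2.Lag.Induct

set_option autoImplicit false

/-!
The induction on the exponent of the prime.
-/

open Finset PowerSeries

namespace Pool.Agent.H803R2.Lag

theorem sp_le_of_imp {R S : Type*} [CommRing R] [CommRing S] [DecidableEq R] [DecidableEq S]
    {N : ℕ} {f : PowerSeries R} {g : PowerSeries S}
    (h : ∀ n < N, coeff n f ≠ 0 → coeff n g ≠ 0) : sp N f ≤ sp N g := by
  unfold sp
  apply Finset.card_le_card
  intro n hn
  simp only [mem_filter, mem_range] at hn ⊢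
  exact ⟨hn.1, h n hn.1 hn.2⟩

/-- Number of `n < N` with `p ^ j` not dividing `E n`. -/
def gg (E : ℕ → ℤ) (r : ℤ) (N : ℕ) : ℕ := ((range N).filter (fun n => ¬ r ∣ E n)).card

section
variable {b : ℕ} {E a : ℕ → ℤ} {m : ℤ} {D : ℕ}

theorem step (p : ℕ) [Fact p.Prime] {k j : ℕ} (hk : (p:ℤ) ^ k ∣ m) (hjk : j < k)
    (ha : ¬ (p:ℤ) ∣ a D) (hD : 1 ≤ D) (e : ℕ) (hq : D ≤ p ^ e) (N X c : ℕ) (hX : 1 ≤ X)
    (hA : sp (p ^ e * N) (mk (ep b E)) ≤ X) (hW : sp (p ^ e * N) (WW b E a m D) ≤ X ^ D)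
    (hG : gg E ((p:ℤ) ^ j) (p ^ e * N) ≤ c * X) :
    gg E ((p:ℤ) ^ (j + 1)) N ≤ gg E ((p:ℤ) ^ j) N
      + (D * D + 1) ^ (p ^ e / D) * ((1 + 2 * c) * X) ^ (p ^ e) := by
  classical
  set q := p ^ e with hqdef
  set M := q * N with hM
  set H := (1 + 2 * c) * X with hH
  have hXH : X ≤ H := by rw [hH]; nlinarith
  have hH1 : 1 ≤ H := hX.trans hXH
  have hcH : c * X ≤ H := by rw [hH]; nlinarith
  have hp0 : ((p:ℤ) ^ j) ≠ 0 := pow_ne_zero _ (by exact_mod_cast (Fact.out : p.Prime).ne_zero)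
  set E0 : PowerSeries ℤ := mk (fun n => if (p:ℤ) ^ j ∣ E n then 0 else E n) with hE0
  set E1 : PowerSeries ℤ := mk (fun n => if (p:ℤ) ^ j ∣ E n then E n / (p:ℤ) ^ j else 0) with hE1
  set V : PowerSeries ℤ := C ((p:ℤ) ^ j) * E1 with hV
  have hEV : mk E = E0 + V := by
    ext n
    rw [map_add, hV, coeff_C_mul, hE0, hE1, coeff_mk, coeff_mk, coeff_mk]
    by_cases h : (p:ℤ) ^ j ∣ E n
    · simp only [h, if_true]
      rw [Int.mul_ediv_cancel' h, zero_add]
    · simp only [h, if_false]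
      ring
  have hspE0 : sp M E0 ≤ c * X := by
    refine le_trans ?_ hG
    unfold sp gg
    apply Finset.card_le_card
    intro n hn
    simp only [mem_filter, mem_range, hE0, coeff_mk] at hn ⊢
    refine ⟨hn.1, ?_⟩
    intro h
    exact hn.2 (by simp [h])
  have hLV : LL (b:ℤ) * V = mk (ep b E) - LL (b:ℤ) * E0 := by
    rw [← LL_mul_mk, hEV]
    ring
  have hspLV : sp M (LL (b:ℤ) * V) ≤ H := by
    rw [hLV]
    refine (sp_sub _ _ _).trans ?_
    have h1 := (sp_mul M (LL (b:ℤ)) E0).trans (Nat.mul_le_mul_right _ (sp_LL M (b:ℤ)))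
    calc sp M (mk (ep b E)) + sp M (LL (b:ℤ) * E0) ≤ X + 2 * (c * X) := by omega
      _ = H := by rw [hH]; ring
  have hspLE1 : sp M (LL (b:ℤ) * E1) ≤ H := by
    refine le_trans (sp_le_of_imp ?_) hspLV
    intro n _ hne
    have : LL (b:ℤ) * V = C ((p:ℤ) ^ j) * (LL (b:ℤ) * E1) := by rw [hV]; ring
    rw [this, coeff_C_mul]
    exact mul_ne_zero hp0 hne
  -- the sparse remainder
  set T1 : PowerSeries ℤ := WW b E a m D - ∑ i ∈ range D, C (a (i + 1) * m ^ (D - 1 - i)) *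
    (LL (b:ℤ) ^ i * (mk E ^ (i + 1) - V ^ (i + 1))) with hT1
  have hdvd : ∀ n, coeff n T1 = 0 → (p:ℤ) ∣ coeff n (LL (b:ℤ) ^ (D - 1) * E1 ^ D) := by
    intro n hn
    apply dvd_of_coeff_zero (b := b) (a := a) (m := m) p hk hjk ha hD E1 n
    rw [← hn, hT1, WW]
    have h1 : ∑ i ∈ range D, C (a (i + 1) * m ^ (D - 1 - i)) *
          (LL (b:ℤ) ^ i * mk E ^ (i + 1)) + C (a 0 * m ^ D) * mk (fun n => (b:ℤ) ^ n)
        - ∑ i ∈ range D, C (a (i + 1) * m ^ (D - 1 - i)) *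
          (LL (b:ℤ) ^ i * (mk E ^ (i + 1) - V ^ (i + 1)))
        = ∑ i ∈ range D, C (a (i + 1) * m ^ (D - 1 - i)) * (LL (b:ℤ) ^ i * V ^ (i + 1))
          + C (a 0 * m ^ D) * mk (fun n => (b:ℤ) ^ n) := by
      have h2 : ∀ i, C (a (i + 1) * m ^ (D - 1 - i)) *
          (LL (b:ℤ) ^ i * (mk E ^ (i + 1) - V ^ (i + 1)))
          = C (a (i + 1) * m ^ (D - 1 - i)) * (LL (b:ℤ) ^ i * mk E ^ (i + 1))
            - C (a (i + 1) * m ^ (D - 1 - i)) * (LL (b:ℤ) ^ i * V ^ (i + 1)) := by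
        intro i; ring
      simp only [h2]
      rw [Finset.sum_sub_distrib]
      ring
    rw [h1, map_add, map_sum, coeff_C_mul, coeff_mk]
    congr 1
    apply Finset.sum_congr rfl
    intro i _
    rw [coeff_C_mul]
    have h3 : LL (b:ℤ) ^ i * V ^ (i + 1)
        = C ((p:ℤ) ^ (j * (i + 1))) * (LL (b:ℤ) ^ i * E1 ^ (i + 1)) := by
      rw [hV, mul_pow, ← map_pow, ← pow_mul]
      ring
    rw [h3, coeff_C_mul]
  have hspT1 : sp M T1 ≤ (D * D + 1) * H ^ D := by
    have h1 : ∀ i ∈ range D, sp M (C (a (i + 1) * m ^ (D - 1 - i)) *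
        (LL (b:ℤ) ^ i * (mk E ^ (i + 1) - V ^ (i + 1)))) ≤ D * H ^ D := by
      intro i hi
      rw [mem_range] at hi
      refine (sp_C_mul _ _ _).trans ?_
      have h2 : LL (b:ℤ) ^ i * (mk E ^ (i + 1) - V ^ (i + 1))
          = E0 * ∑ l ∈ range (i + 1), (LL (b:ℤ) * mk E) ^ l * (LL (b:ℤ) * V) ^ (i - l) := by
        have h3 := Commute.geom_sum₂_mul (Commute.all (mk E) V) (i + 1)
        have h4 : mk E - V = E0 := by rw [hEV]; ring
        rw [h4] at h3
        rw [← h3]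
        rw [mul_comm E0, ← mul_assoc, Finset.mul_sum]
        congr 1
        apply Finset.sum_congr rfl
        intro l hl
        rw [mem_range] at hl
        have h5 : i + 1 - 1 - l = i - l := by omega
        have h6 : LL (b:ℤ) ^ i = LL (b:ℤ) ^ l * LL (b:ℤ) ^ (i - l) := by
          rw [← pow_add]; congr 1; omega
        rw [h5, h6]
        ring
      rw [h2]
      refine (sp_mul _ _ _).trans ?_
      have h7 : sp M (∑ l ∈ range (i + 1), (LL (b:ℤ) * mk E) ^ l * (LL (b:ℤ) * V) ^ (i - l))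
          ≤ D * H ^ i := by
        refine (sp_sum _ _ _).trans ?_
        calc ∑ l ∈ range (i + 1), sp M ((LL (b:ℤ) * mk E) ^ l * (LL (b:ℤ) * V) ^ (i - l))
            ≤ ∑ l ∈ range (i + 1), H ^ i := by
              apply Finset.sum_le_sum
              intro l hl
              rw [mem_range] at hl
              refine (sp_mul _ _ _).trans ?_
              have h8 : H ^ i = H ^ l * H ^ (i - l) := by rw [← pow_add]; congr 1; omega
              rw [h8]
              apply Nat.mul_le_mul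
              · refine (sp_pow _ _ _).trans (Nat.pow_le_pow_left ?_ _)
                rw [LL_mul_mk]
                exact hA.trans hXH
              · exact (sp_pow _ _ _).trans (Nat.pow_le_pow_left hspLV _)
          _ = (i + 1) * H ^ i := by rw [Finset.sum_const, card_range, smul_eq_mul]
          _ ≤ D * H ^ i := Nat.mul_le_mul_right _ (by omega)
      calc sp M E0 * sp M (∑ l ∈ range (i + 1),
            (LL (b:ℤ) * mk E) ^ l * (LL (b:ℤ) * V) ^ (i - l)) ≤ H * (D * H ^ i) :=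
            Nat.mul_le_mul (hspE0.trans hcH) h7
        _ = D * H ^ (i + 1) := by ring
        _ ≤ D * H ^ D := Nat.mul_le_mul_left _ (Nat.pow_le_pow_right hH1 (by omega))
    refine (sp_sub _ _ _).trans ?_
    have h2 := (sp_sum M (range D) (fun i => C (a (i + 1) * m ^ (D - 1 - i)) *
        (LL (b:ℤ) ^ i * (mk E ^ (i + 1) - V ^ (i + 1))))).trans (Finset.sum_le_sum h1)
    rw [Finset.sum_const, card_range, smul_eq_mul] at h2
    have h3 : sp M (WW b E a m D) ≤ H ^ D := hW.trans (Nat.pow_le_pow_left hXH D)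
    calc _ ≤ H ^ D + D * (D * H ^ D) := by omega
      _ = (D * D + 1) * H ^ D := by ring
  -- reduction modulo `p`
  set f : PowerSeries (ZMod p) := PowerSeries.map (Int.castRingHom (ZMod p)) E1 with hf
  have hmapLL : PowerSeries.map (Int.castRingHom (ZMod p)) (LL (b:ℤ)) = LL (b : ZMod p) := by
    simp [LL]
  have hfr := frob_bound p (b : ZMod p) f e D hD hq N
  have hs1 : sp M (LL (b : ZMod p) ^ (D - 1) * f ^ D) ≤ (D * D + 1) * H ^ D := by
    refine le_trans (sp_le_of_imp ?_) hspT1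
    intro n _ hne h0
    apply hne
    have h1 : LL (b : ZMod p) ^ (D - 1) * f ^ D
        = PowerSeries.map (Int.castRingHom (ZMod p)) (LL (b:ℤ) ^ (D - 1) * E1 ^ D) := by
      rw [map_mul, map_pow, map_pow, hmapLL]
    rw [h1, coeff_map]
    simp only [eq_intCast]
    rw [ZMod.intCast_zmod_eq_zero_iff_dvd]
    exact hdvd n h0
  have hs2 : sp M (LL (b : ZMod p) * f) ≤ H := by
    refine le_trans (sp_le_of_imp ?_) hspLE1
    intro n _ hne h0
    apply hne
    have h1 : LL (b : ZMod p) * f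
        = PowerSeries.map (Int.castRingHom (ZMod p)) (LL (b:ℤ) * E1) := by
      rw [map_mul, hmapLL]
    rw [h1, coeff_map, h0]
    simp
  have hspf : sp N f ≤ (D * D + 1) ^ (q / D) * H ^ q := by
    calc sp N f ≤ (sp M (LL (b : ZMod p) ^ (D - 1) * f ^ D)) ^ (q / D) *
          (sp M (LL (b : ZMod p) * f)) ^ (q % D) := hfr
      _ ≤ ((D * D + 1) * H ^ D) ^ (q / D) * H ^ (q % D) :=
          Nat.mul_le_mul (Nat.pow_le_pow_left hs1 _) (Nat.pow_le_pow_left hs2 _)
      _ = (D * D + 1) ^ (q / D) * H ^ (D * (q / D) + q % D) := by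
          rw [mul_pow, ← pow_mul, pow_add]; ring
      _ = _ := by rw [Nat.div_add_mod]
  -- conclusion
  have hlast : gg E ((p:ℤ) ^ (j + 1)) N ≤ gg E ((p:ℤ) ^ j) N + sp N f := by
    unfold gg sp
    refine le_trans (Finset.card_le_card ?_) (Finset.card_union_le _ _)
    intro n hn
    simp only [mem_filter, mem_range, mem_union] at hn ⊢
    by_cases h : (p:ℤ) ^ j ∣ E n
    · right
      refine ⟨hn.1, ?_⟩
      rw [hf, coeff_map, hE1, coeff_mk]
      simp only [h, if_true, eq_intCast]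
      intro h0
      rw [ZMod.intCast_zmod_eq_zero_iff_dvd] at h0
      apply hn.2
      obtain ⟨t, ht⟩ := h
      rw [ht, Int.mul_ediv_cancel_left _ hp0] at h0
      rw [ht, pow_succ]
      exact mul_dvd_mul_left _ h0
    · exact Or.inl ⟨hn.1, h⟩
  omega

theorem g_bound (p : ℕ) [Fact p.Prime] {k : ℕ} (hk : (p:ℤ) ^ k ∣ m)
    (ha : ¬ (p:ℤ) ∣ a D) (hD : 1 ≤ D) (e : ℕ) (hq : D ≤ p ^ e) (Bf : ℕ → ℕ)
    (hB1 : ∀ N, 1 ≤ Bf N) (hBm : Monotone Bf) (hA : ∀ N, sp N (mk (ep b E)) ≤ Bf N)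
    (hW : ∀ N, sp N (WW b E a m D) ≤ (Bf N) ^ D) (j : ℕ) (hj : j ≤ k) :
    ∃ c : ℕ, ∀ N, gg E ((p:ℤ) ^ j) N ≤ c * (Bf ((p ^ e) ^ j * N)) ^ ((p ^ e) ^ j) := by
  have hq1 : 1 ≤ p ^ e := hD.trans hq
  induction j with
  | zero =>
    refine ⟨0, ?_⟩
    intro N
    simp [gg]
  | succ j ih =>
    obtain ⟨c, hc⟩ := ih (by omega)
    refine ⟨c + (D * D + 1) ^ (p ^ e / D) * (1 + 2 * c) ^ (p ^ e), ?_⟩
    intro N
    set q := p ^ e with hqdef
    set B := Bf (q ^ (j + 1) * N) with hB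
    have hle : q ^ j * N ≤ q ^ (j + 1) * N :=
      Nat.mul_le_mul_right _ (Nat.pow_le_pow_right hq1 (by omega))
    have hle2 : q * N ≤ q ^ (j + 1) * N := by
      apply Nat.mul_le_mul_right
      calc q = q ^ 1 := (pow_one q).symm
        _ ≤ q ^ (j + 1) := Nat.pow_le_pow_right hq1 (by omega)
    have hqj : 1 ≤ q ^ j := Nat.one_le_pow _ _ hq1
    have hB0 : 1 ≤ B := hB1 _
    have hX : 1 ≤ B ^ (q ^ j) := Nat.one_le_pow _ _ hB0
    have hBX : B ≤ B ^ (q ^ j) := by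
      calc B = B ^ 1 := (pow_one B).symm
        _ ≤ B ^ (q ^ j) := Nat.pow_le_pow_right hB0 hqj
    have hstep := step (b := b) (E := E) (a := a) (m := m) (D := D) p hk (j := j) (by omega) ha hD e
      hq N (B ^ (q ^ j)) c hX
      ((hA _).trans ((hBm hle2).trans hBX))
      (by
        refine (hW _).trans (Nat.pow_le_pow_left ?_ D)
        exact (hBm hle2).trans hBX)
      (by
        have h1 := hc (q * N)
        have h2 : q ^ j * (q * N) = q ^ (j + 1) * N := by ring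
        rwa [h2] at h1)
    have h3 := hc N
    have h4 : c * (Bf (q ^ j * N)) ^ (q ^ j) ≤ c * B ^ (q ^ (j + 1)) := by
      apply Nat.mul_le_mul_left
      calc (Bf (q ^ j * N)) ^ (q ^ j) ≤ B ^ (q ^ j) := Nat.pow_le_pow_left (hBm hle) _
        _ ≤ B ^ (q ^ (j + 1)) := Nat.pow_le_pow_right hB0 (Nat.pow_le_pow_right hq1 (by omega))
    have h5 : ((1 + 2 * c) * B ^ (q ^ j)) ^ q = (1 + 2 * c) ^ q * B ^ (q ^ (j + 1)) := by
      rw [mul_pow, ← pow_mul, ← pow_succ]
    rw [← hqdef, h5] at hstep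
    calc gg E ((p:ℤ) ^ (j + 1)) N
        ≤ gg E ((p:ℤ) ^ j) N + (D * D + 1) ^ (q / D) * ((1 + 2 * c) ^ q * B ^ (q ^ (j + 1))) :=
          hstep
      _ ≤ c * B ^ (q ^ (j + 1))
          + (D * D + 1) ^ (q / D) * ((1 + 2 * c) ^ q * B ^ (q ^ (j + 1))) := by omega
      _ = _ := by ring

end

end Pool.Agent.H803R2.Lag
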