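import Mathlib

set_option autoImplicit false

/-!
Number of nonzero coefficients of power series below a bound.
-/

open Finset PowerSeries

namespace Pool.Agent.H803R2.Lag

section
variable {R : Type*} [CommRing R] [DecidableEq R]

/-- Number of `n < N` with nonzero `n`-th coefficient. -/
noncomputable def sp (N : ℕ) (f : PowerSeries R) : ℕ := ((range N).filter (fun n => coeff n f ≠ 0)).card

theorem sp_mono {M N : ℕ} (h : M ≤ N) (f : PowerSeries R) : sp M f ≤ sp N f := by
  unfold sp
  apply Finset.card_le_card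
  intro n hn
  simp only [mem_filter, mem_range] at hn ⊢
  exact ⟨by omega, hn.2⟩

theorem sp_le_of_subset {N : ℕ} {f g : PowerSeries R}
    (h : ∀ n < N, coeff n f ≠ 0 → coeff n g ≠ 0) : sp N f ≤ sp N g := by
  unfold sp
  apply Finset.card_le_card
  intro n hn
  simp only [mem_filter, mem_range] at hn ⊢
  exact ⟨hn.1, h n hn.1 hn.2⟩

theorem sp_add (N : ℕ) (f g : PowerSeries R) : sp N (f + g) ≤ sp N f + sp N g := by
  unfold sp
  refine le_trans (Finset.card_le_card ?_) (Finset.card_union_le _ _)
  intro n hn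
  simp only [mem_filter, mem_range, mem_union, map_add] at hn ⊢
  by_cases h : coeff n f = 0
  · right
    refine ⟨hn.1, ?_⟩
    intro h'
    exact hn.2 (by rw [h, h', add_zero])
  · exact Or.inl ⟨hn.1, h⟩

theorem sp_neg (N : ℕ) (f : PowerSeries R) : sp N (-f) = sp N f := by
  unfold sp
  simp

theorem sp_sub (N : ℕ) (f g : PowerSeries R) : sp N (f - g) ≤ sp N f + sp N g := by
  rw [sub_eq_add_neg]
  refine (sp_add N f (-g)).trans ?_
  rw [sp_neg]

theorem sp_sum {ι : Type*} (N : ℕ) (s : Finset ι) (f : ι → PowerSeries R) :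
    sp N (∑ i ∈ s, f i) ≤ ∑ i ∈ s, sp N (f i) := by
  classical
  induction s using Finset.induction_on with
  | empty => simp [sp]
  | insert a s ha ih =>
    rw [Finset.sum_insert ha, Finset.sum_insert ha]
    exact (sp_add _ _ _).trans (by omega)

theorem sp_mul (N : ℕ) (f g : PowerSeries R) : sp N (f * g) ≤ sp N f * sp N g := by
  unfold sp
  rw [← Finset.card_product]
  refine le_trans ?_ (Finset.card_image_le (f := fun p : ℕ × ℕ => p.1 + p.2))
  apply Finset.card_le_card
  intro n hn
  simp only [mem_filter, mem_range] at hn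
  rw [coeff_mul] at hn
  obtain ⟨p, hp, hne⟩ := Finset.exists_ne_zero_of_sum_ne_zero hn.2
  rw [Finset.HasAntidiagonal.mem_antidiagonal] at hp
  rw [mem_image]
  refine ⟨p, ?_, hp⟩
  simp only [mem_product, mem_filter, mem_range]
  refine ⟨⟨by omega, left_ne_zero_of_mul hne⟩, ⟨by omega, right_ne_zero_of_mul hne⟩⟩

theorem sp_one (N : ℕ) : sp N (1 : PowerSeries R) ≤ 1 := by
  unfold sp
  have : (range N).filter (fun n => coeff n (1 : PowerSeries R) ≠ 0) ⊆ {0} := by
    intro n hn
    simp only [mem_filter, coeff_one] at hn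
    by_contra h
    rw [mem_singleton] at h
    exact hn.2 (by simp [h])
  exact (Finset.card_le_card this).trans (by simp)

theorem sp_pow (N : ℕ) (f : PowerSeries R) (k : ℕ) : sp N (f ^ k) ≤ (sp N f) ^ k := by
  induction k with
  | zero => simpa using sp_one N
  | succ k ih =>
    rw [pow_succ, pow_succ]
    exact (sp_mul _ _ _).trans (Nat.mul_le_mul_right _ ih)

theorem sp_C (N : ℕ) (c : R) : sp N (C c) ≤ 1 := by
  unfold sp
  have : (range N).filter (fun n => coeff n (C c : PowerSeries R) ≠ 0) ⊆ {0} := by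
    intro n hn
    simp only [mem_filter, coeff_C] at hn
    by_contra h
    rw [mem_singleton] at h
    exact hn.2 (by simp [h])
  exact (Finset.card_le_card this).trans (by simp)

theorem sp_C_mul (N : ℕ) (c : R) (f : PowerSeries R) : sp N (C c * f) ≤ sp N f := by
  refine (sp_mul _ _ _).trans ?_
  calc sp N (C c) * sp N f ≤ 1 * sp N f := Nat.mul_le_mul_right _ (sp_C N c)
    _ = _ := one_mul _

theorem sp_X (N : ℕ) : sp N (X : PowerSeries R) ≤ 1 := by
  unfold sp
  have : (range N).filter (fun n => coeff n (X : PowerSeries R) ≠ 0) ⊆ {1} := by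
    intro n hn
    simp only [mem_filter, coeff_X] at hn
    by_contra h
    rw [mem_singleton] at h
    exact hn.2 (by simp [h])
  exact (Finset.card_le_card this).trans (by simp)

/-- The linear factor `1 - b X`. -/
noncomputable def LL (b : R) : PowerSeries R := 1 - C b * X

omit [DecidableEq R] in
theorem coeff_zero_LL_pow (b : R) (k : ℕ) : coeff 0 (LL b ^ k) = 1 := by
  simp [LL]

theorem sp_LL (N : ℕ) (b : R) : sp N (LL b) ≤ 2 := by
  unfold LL
  refine (sp_sub _ _ _).trans ?_
  have h1 := sp_one (R := R) N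
  have h2 := (sp_C_mul N b X).trans (sp_X (R := R) N)
  omega

theorem sp_LL_pow (N : ℕ) (b : R) (k : ℕ) : sp N (LL b ^ k) ≤ 2 ^ k :=
  (sp_pow _ _ _).trans (Nat.pow_le_pow_left (sp_LL N b) k)

omit [DecidableEq R] in
/-- Degree of a power of `1 - b X`. -/
theorem coeff_LL_pow (b : R) (k n : ℕ) (h : k < n) : coeff n (LL b ^ k) = 0 := by
  have h1 : LL b ^ k = (((1 : Polynomial R) - Polynomial.C b * Polynomial.X) ^ k : Polynomial R) := by
    simp [LL]
  rw [h1, Polynomial.coeff_coe]
  apply Polynomial.coeff_eq_zero_of_natDegree_lt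
  refine lt_of_le_of_lt ?_ h
  calc ((1 - Polynomial.C b * Polynomial.X) ^ k : Polynomial R).natDegree
      ≤ k * (1 - Polynomial.C b * Polynomial.X : Polynomial R).natDegree :=
        Polynomial.natDegree_pow_le
    _ ≤ k * 1 := by
        gcongr
        refine (Polynomial.natDegree_sub_le _ _).trans ?_
        refine max_le (by simp) ?_
        exact (Polynomial.natDegree_C_mul_le _ _).trans Polynomial.natDegree_X_le
    _ = k := mul_one k

end

end Pool.Agent.H803R2.Lag
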